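import Mathlib

/-!
Definitions for the game of cops and robber on compact geodesic metric spaces.
-/

open Filter Topology

namespace Pool.Agent.H14Cops

/-- Any two points are joined by a path whose length is their distance: there is an isometric
copy of the interval `[0, dist x y]` from `x` to `y`. -/
def IsGeodesic (X : Type) [MetricSpace X] : Prop :=
  ∀ x y : X, ∃ γ : ℝ → X, γ 0 = x ∧ γ (dist x y) = y ∧
    ∀ s ∈ Set.Icc (0 : ℝ) (dist x y), ∀ t ∈ Set.Icc (0 : ℝ) (dist x y),
      dist (γ s) (γ t) = |s - t|

/-- The doubling constant of `X` is at most `N`: every open ball of radius `r > 0` is covered by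
at most `N` open balls of radius `r / 2`. -/
def DoublingConstLE (X : Type) [MetricSpace X] (N : ℕ) : Prop :=
  ∀ (x : X) (r : ℝ), 0 < r →
    ∃ C : Finset X, C.card ≤ N ∧ Metric.ball x r ⊆ ⋃ c ∈ C, Metric.ball c (r / 2)

/-- A strategy of the robber's player against `k` cops: the initial positions of the robber and of
all cops, an agility function with divergent sum (`τ n` is the agility in step `n + 1`), and the
robber's position after every step, as a function of the cops' moves.  `causal` says that the
robber's position `r ^ (n + 1)` depends only on the cops' positions `c ^ 0, ..., c ^ n`. -/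
structure RobberStrategy (X : Type) [MetricSpace X] (k : ℕ) where
  r₀ : X
  c₀ : Fin k → X
  τ : ℕ → ℝ
  τ_pos : ∀ n, 0 < τ n
  τ_div : Tendsto (fun n => ∑ i ∈ Finset.range n, τ i) atTop atTop
  robber : (ℕ → Fin k → X) → ℕ → X
  start : ∀ c, robber c 0 = r₀
  causal : ∀ n c c', (∀ m ≤ n, c m = c' m) → robber c (n + 1) = robber c' (n + 1)
  legal : ∀ c n, dist (robber c n) (robber c (n + 1)) ≤ τ n

/-- `c` is a legal play of the cops against the strategy `S`. -/
def LegalCops {X : Type} [MetricSpace X] {k : ℕ} (S : RobberStrategy X k) (c : ℕ → Fin k → X) :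
    Prop :=
  c 0 = S.c₀ ∧ ∀ n i, dist (c n i) (c (n + 1) i) ≤ S.τ n

/-- The `k` cops win on `X`: against every strategy of the robber they have a legal play for which
the value `inf_n min_i d (r ^ n, c_i ^ n)` of the game is `0`. -/
def CopsWin (X : Type) [MetricSpace X] (k : ℕ) : Prop :=
  ∀ S : RobberStrategy X k, ∃ c : ℕ → Fin k → X, LegalCops S c ∧
    ∀ ε : ℝ, 0 < ε → ∃ n i, dist (S.robber c n) (c n i) < ε

/-- The cop number of `X`, `⊤` if no number of cops wins. -/
noncomputable def copNumber (X : Type) [MetricSpace X] : ℕ∞ :=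
  sInf {m : ℕ∞ | ∃ k : ℕ, 1 ≤ k ∧ m = k ∧ CopsWin X k}

/-- The robber has a strategy against `k` cops which keeps, against every legal play of the cops,
all cops at distance at least a fixed `ε > 0` at all times. -/
def RobberEvades (X : Type) [MetricSpace X] (k : ℕ) : Prop :=
  ∃ S : RobberStrategy X k, ∃ ε : ℝ, 0 < ε ∧
    ∀ c : ℕ → Fin k → X, LegalCops S c → ∀ n i, ε ≤ dist (S.robber c n) (c n i)

theorem copNumber_eq_top {X : Type} [MetricSpace X] (h : ∀ k : ℕ, RobberEvades X k) :
    copNumber X = ⊤ := by
  unfold copNumber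
  rw [sInf_eq_top]
  rintro m ⟨k, -, -, hk⟩
  exfalso
  obtain ⟨S, ε, hε, hS⟩ := h k
  obtain ⟨c, hc, h2⟩ := hk S
  obtain ⟨n, i, h3⟩ := h2 ε hε
  exact absurd (hS c hc n i) (not_le.2 h3)

end Pool.Agent.H14Cops
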