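import Pool.Agent.H14Cops.Doubling

/-!
The one-scale dodging functions: `fv n a T w` is a truncated distance to the vertex `w` of level
`a` at height `T`.
-/

open Filter Topology

namespace Pool.Agent.H14Cops

/-- There is an arc from `v` to `w`. -/
def isArc (v w : ZMod 5) : Prop := w = 2 * v ∨ w = 2 * v + 1

instance (v w : ZMod 5) : Decidable (isArc v w) := by unfold isArc; infer_instance

theorem isArc_self (e : E) : isArc (src e) (tgt e) := by
  revert e
  unfold isArc src tgt
  decide

theorem isArc_in : ∀ v w : ZMod 5, isArc v (2 * w) → isArc v (2 * w + 1) → v = w := by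
  unfold isArc
  decide

theorem isArc_out : ∀ v w : ZMod 5, isArc (2 * w) v → isArc (2 * w + 1) v → False := by
  unfold isArc
  decide

theorem tgt_of_src (e : E) (w : ZMod 5) (h : src e = w) : tgt e = 2 * w ∨ tgt e = 2 * w + 1 := by
  have := isArc_self e
  rw [h] at this
  exact this

theorem two_ne : ∀ w : ZMod 5, 2 * w ≠ 2 * w + 1 := by decide

/-- The shape of the truncated distance, in terms of the relative height `u`. -/
def shp (A u : ℤ) (p1 p2 p3 p4 p5 p6 : Bool) : ℤ :=
  if 1 ≤ u then
    if u ≤ 2 * A then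
      bif p1 then u else bif p2 then min (3 * A) (4 * A - u) else 3 * A
    else bif p3 then min (3 * A) u else 3 * A
  else
    if -(2 * A) < u then
      bif p4 then 1 - u else bif p5 then min (3 * A) (4 * A + u - 1) else 3 * A
    else bif p6 then min (3 * A) (1 - u) else 3 * A

theorem shp_a {A u : ℤ} (h1 : 1 ≤ u) (h2 : u ≤ 2 * A) (p1 p2 p3 p4 p5 p6 : Bool) :
    shp A u p1 p2 p3 p4 p5 p6 = bif p1 then u else bif p2 then min (3 * A) (4 * A - u) else 3 * A := by
  unfold shp
  rw [if_pos h1, if_pos h2]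

theorem shp_b {A u : ℤ} (h1 : 1 ≤ u) (h2 : 2 * A < u) (p1 p2 p3 p4 p5 p6 : Bool) :
    shp A u p1 p2 p3 p4 p5 p6 = bif p3 then min (3 * A) u else 3 * A := by
  unfold shp
  rw [if_pos h1, if_neg (by omega)]

theorem shp_c {A u : ℤ} (h1 : u ≤ 0) (h2 : -(2 * A) < u) (p1 p2 p3 p4 p5 p6 : Bool) :
    shp A u p1 p2 p3 p4 p5 p6 =
      bif p4 then 1 - u else bif p5 then min (3 * A) (4 * A + u - 1) else 3 * A := by
  unfold shp
  rw [if_neg (by omega), if_pos h2]

theorem shp_d {A u : ℤ} (h1 : u ≤ 0) (h2 : u ≤ -(2 * A)) (p1 p2 p3 p4 p5 p6 : Bool) :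
    shp A u p1 p2 p3 p4 p5 p6 = bif p6 then min (3 * A) (1 - u) else 3 * A := by
  unfold shp
  rw [if_neg (by omega), if_neg (by omega)]

/-- Truncated distance to a vertex of level `a`. -/
def fv (n a : ℕ) (T : ℤ) (w : ZMod 5) (x : St) : ℤ :=
  shp (2 ^ a) (Int.bmod (T - x.1) (2 ^ (n + 2))) (decide (tgt (x.2 a) = w))
    (decide (isArc (src (x.2 a)) w)) (decide (isArc (tgt (x.2 a)) w)) (decide (src (x.2 a) = w))
    (decide (isArc w (tgt (x.2 a)))) (decide (isArc w (src (x.2 a))))

theorem bmod_bounds (n : ℕ) (z : ℤ) : -(2 * 2 ^ n) ≤ Int.bmod z (2 ^ (n + 2)) ∧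
    Int.bmod z (2 ^ (n + 2)) < 2 * 2 ^ n := by
  have h1 := Int.le_bmod (x := z) (m := 2 ^ (n + 2)) (by positivity)
  have h2 := Int.bmod_lt (x := z) (m := 2 ^ (n + 2)) (by positivity)
  have h3 : ((2 ^ (n + 2) : ℕ) : ℤ) = 4 * 2 ^ n := by push_cast; ring
  rw [h3] at h1 h2
  omega

theorem bmod_dvd (n : ℕ) (z : ℤ) : (2 : ℤ) ^ (n + 2) ∣ z - Int.bmod z (2 ^ (n + 2)) := by
  have := Int.dvd_self_sub_bmod (x := z) (m := 2 ^ (n + 2))
  simpa using this

theorem bmod_eq {n : ℕ} {z u : ℤ} (h1 : -(2 * 2 ^ n) ≤ u) (h2 : u < 2 * 2 ^ n)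
    (h3 : (2 : ℤ) ^ (n + 2) ∣ z - u) : Int.bmod z (2 ^ (n + 2)) = u := by
  have h4 := bmod_bounds n z
  have h5 := bmod_dvd n z
  have h6 := dvd_sub h3 h5
  have h7 : z - u - (z - Int.bmod z (2 ^ (n + 2))) = Int.bmod z (2 ^ (n + 2)) - u := by ring
  rw [h7] at h6
  have h8 : |Int.bmod z (2 ^ (n + 2)) - u| < 2 ^ (n + 2) := by
    have : (2 : ℤ) ^ (n + 2) = 4 * 2 ^ n := by ring
    rw [this, abs_lt]
    constructor <;> linarith
  have := Int.eq_zero_of_abs_lt_dvd h6 h8
  linarith

theorem pow_facts {n a : ℕ} (ha : a < n) : (1 : ℤ) ≤ 2 ^ a ∧ (2 : ℤ) * 2 ^ a ≤ 2 ^ n := by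
  refine ⟨one_le_pow₀ (by norm_num), ?_⟩
  have : (2 : ℤ) * 2 ^ a = 2 ^ (a + 1) := by ring
  rw [this]
  exact pow_le_pow_right₀ (by norm_num) (by omega)

theorem shp_bounds {A u : ℤ} (hA : 1 ≤ A) (p1 p2 p3 p4 p5 p6 : Bool) :
    0 ≤ shp A u p1 p2 p3 p4 p5 p6 ∧ shp A u p1 p2 p3 p4 p5 p6 ≤ 3 * A := by
  rcases le_or_gt 1 u with h1 | h1
  · rcases le_or_gt u (2 * A) with h2 | h2
    · rw [shp_a h1 h2]
      cases p1 <;> cases p2 <;> simp only [cond_true, cond_false] <;> omega
    · rw [shp_b h1 h2]
      cases p3 <;> simp only [cond_true, cond_false] <;> omega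
  · rcases lt_or_ge (-(2 * A)) u with h2 | h2
    · rw [shp_c (by omega) h2]
      cases p4 <;> cases p5 <;> simp only [cond_true, cond_false] <;> omega
    · rw [shp_d (by omega) h2]
      cases p6 <;> simp only [cond_true, cond_false] <;> omega

/-- One step inside an edge. -/
theorem shp_lip {A u : ℤ} (hA : 1 ≤ A) (k1 : u ≠ 1) (k2 : u ≠ 1 + 2 * A) (k3 : u ≠ 1 - 2 * A)
    (p1 p2 p3 p4 p5 p6 : Bool) :
    |shp A u p1 p2 p3 p4 p5 p6 - shp A (u - 1) p1 p2 p3 p4 p5 p6| ≤ 1 := by
  rw [abs_le]
  rcases le_or_gt 1 u with h1 | h1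
  · rcases le_or_gt u (2 * A) with h2 | h2
    · rw [shp_a h1 h2, shp_a (by omega) (by omega)]
      cases p1 <;> cases p2 <;> simp only [cond_true, cond_false] <;> omega
    · rw [shp_b h1 h2, shp_b (by omega) (by omega)]
      cases p3 <;> simp only [cond_true, cond_false] <;> omega
  · rcases lt_or_ge (-(2 * A)) u with h2 | h2
    · rw [shp_c (by omega) h2, shp_c (by omega) (by omega)]
      cases p4 <;> cases p5 <;> simp only [cond_true, cond_false] <;> omega
    · rw [shp_d (by omega) h2, shp_d (by omega) (by omega)]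
      cases p6 <;> simp only [cond_true, cond_false] <;> omega

theorem fv_bounds {n a : ℕ} (ha : a < n) (T : ℤ) (w : ZMod 5) (x : St) :
    0 ≤ fv n a T w x ∧ fv n a T w x ≤ 3 * 2 ^ a :=
  shp_bounds (pow_facts ha).1 _ _ _ _ _ _

theorem dvd_of_upd {a : ℕ} {T t : ℤ} (hT : upd a T) (ht : upd a t) : (2 : ℤ) ^ (a + 1) ∣ T - t := by
  unfold upd at hT ht
  exact Int.dvd_of_emod_eq_zero (Int.emod_eq_emod_iff_emod_sub_eq_zero.1 (hT.trans ht.symm))

theorem upd_of_dvd {a : ℕ} {T t : ℤ} (hT : upd a T) (h : (2 : ℤ) ^ (a + 1) ∣ T - t) : upd a t := by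
  unfold upd at hT ⊢
  rw [← hT]
  exact (Int.emod_eq_emod_iff_emod_sub_eq_zero.2 (Int.emod_eq_zero_of_dvd h)).symm

theorem fv_lip_up {n a : ℕ} (ha : a < n) {T : ℤ} (hT : upd a T) (w : ZMod 5) {x y : St}
    (h : up n x y) : |fv n a T w x - fv n a T w y| ≤ 1 := by
  obtain ⟨h1, h2⟩ := pow_facts ha
  obtain ⟨h3, h4⟩ := bmod_bounds n (T - x.1)
  obtain ⟨h5, h6⟩ := bmod_bounds n (T - y.1)
  have h7 := bmod_dvd n (T - x.1)
  have h8 := bmod_dvd n (T - y.1)
  obtain ⟨hxy1, hxy2⟩ := h
  have hxy3 := hxy2 a ha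
  -- relation between the two residues
  have h9 : (2 : ℤ) ^ (n + 2) ∣ (Int.bmod (T - x.1) (2 ^ (n + 2)) - 1 - Int.bmod (T - y.1) (2 ^ (n + 2))) := by
    have := dvd_sub (dvd_sub h8 h7) (dvd_neg.2 hxy1)
    have e : T - y.1 - Int.bmod (T - y.1) (2 ^ (n + 2)) - (T - x.1 - Int.bmod (T - x.1) (2 ^ (n + 2)))
        - -(y.1 - x.1 - 1) = Int.bmod (T - x.1) (2 ^ (n + 2)) - 1 - Int.bmod (T - y.1) (2 ^ (n + 2)) := by
      ring
    rwa [e] at this
  have h10 : upd a y.1 ↔ (2 : ℤ) ^ (a + 1) ∣ Int.bmod (T - y.1) (2 ^ (n + 2)) := by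
    have h11 : (2 : ℤ) ^ (a + 1) ∣ T - y.1 - Int.bmod (T - y.1) (2 ^ (n + 2)) :=
      dvd_trans (pow_dvd_pow 2 (by omega)) h8
    constructor
    · intro h
      have := dvd_sub (dvd_of_upd hT h) h11
      rwa [sub_sub_cancel] at this
    · intro h
      apply upd_of_dvd hT
      have := dvd_add h11 h
      rwa [sub_add_cancel] at this
  have h12 : (2 : ℤ) ^ (a + 1) = 2 * 2 ^ a := by ring
  have h13 : (2 : ℤ) ^ (n + 2) = 4 * 2 ^ n := by ring
  rw [h12] at h10
  rw [h13] at h9
  have hx := isArc_self (x.2 a)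
  have hy := isArc_self (y.2 a)
  unfold fv
  generalize Int.bmod (T - x.1) (2 ^ (n + 2)) = u at *
  generalize Int.bmod (T - y.1) (2 ^ (n + 2)) = v at *
  generalize (2 : ℤ) ^ a = A at *
  generalize (2 : ℤ) ^ n = B at *
  have hcase : v = u - 1 ∨ (u = -(2 * B) ∧ v = 2 * B - 1) := by
    obtain ⟨k, hk⟩ := h9
    have hk1 : k < 1 := by
      by_contra hcon
      push Not at hcon
      nlinarith
    have hk2 : -2 < k := by
      by_contra hcon
      push Not at hcon
      nlinarith
    have : k = 0 ∨ k = -1 := by omega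
    rcases this with rfl | rfl
    · left; linarith
    · right
      constructor <;> linarith
  rcases hcase with rfl | ⟨rfl, rfl⟩
  · by_cases hup : (2 * A) ∣ (u - 1)
    · rw [if_pos (h10.2 hup)] at hxy3
      obtain ⟨k, hk⟩ := hup
      -- k = 0, 1, -1 or |k| ≥ 2
      have hk' : k ≤ -2 ∨ k = -1 ∨ k = 0 ∨ k = 1 ∨ 2 ≤ k := by omega
      rcases hk' with hk' | rfl | rfl | rfl | hk'
      · have hu : u - 1 ≤ -(4 * A) := by nlinarith
        rw [shp_d (by omega) (by omega), shp_d (by omega) (by omega), abs_le]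
        generalize decide (isArc w (src (x.2 a))) = b1
        generalize decide (isArc w (src (y.2 a))) = b2
        cases b1 <;> cases b2 <;> simp only [cond_true, cond_false] <;> omega
      · have : u = 1 - 2 * A := by linarith
        subst this
        rw [shp_c (by omega) (by omega), shp_d (by omega) (by omega), abs_le, hxy3]
        by_cases c1 : src (x.2 a) = w
        · have c2 : isArc w (tgt (x.2 a)) := c1 ▸ hx
          simp only [c1, c2, decide_true, cond_true]
          omega
        · simp only [c1, decide_false, cond_false]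
          generalize decide (isArc w (tgt (x.2 a))) = b1
          cases b1 <;> simp only [cond_true, cond_false] <;> omega
      · have : u = 1 := by linarith
        subst this
        rw [shp_a (by omega) (by omega), shp_c (by omega) (by omega), abs_le, hxy3]
        generalize decide (tgt (x.2 a) = w) = b1
        generalize decide (isArc (src (x.2 a)) w) = b2
        generalize decide (isArc w (tgt (y.2 a))) = b3
        cases b1 <;> cases b2 <;> cases b3 <;> simp only [cond_true, cond_false] <;> omega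
      · have : u = 1 + 2 * A := by linarith
        subst this
        rw [shp_b (by omega) (by omega), shp_a (by omega) (by omega), abs_le]
        by_cases c1 : tgt (y.2 a) = w
        · have c2 : isArc (tgt (x.2 a)) w := by
            rw [← hxy3, ← c1]
            exact hy
          simp only [c1, c2, decide_true, cond_true]
          omega
        · rw [← hxy3]
          simp only [c1, decide_false, cond_false]
          generalize decide (isArc (src (y.2 a)) w) = b1
          cases b1 <;> simp only [cond_true, cond_false] <;> omega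
      · have hu : 4 * A ≤ u - 1 := by nlinarith
        rw [shp_b (by omega) (by omega), shp_b (by omega) (by omega), abs_le]
        generalize decide (isArc (tgt (x.2 a)) w) = b1
        generalize decide (isArc (tgt (y.2 a)) w) = b2
        cases b1 <;> cases b2 <;> simp only [cond_true, cond_false] <;> omega
    · rw [if_neg (fun h => hup (h10.1 h))] at hxy3
      rw [hxy3]
      apply shp_lip h1
      · rintro rfl
        exact hup (by simp)
      · rintro rfl
        exact hup (by simp)
      · rintro rfl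
        exact hup (by simp)
  · rw [shp_d (by omega) (by omega), shp_b (by omega) (by omega), abs_le]
    generalize decide (isArc w (src (x.2 a))) = b1
    generalize decide (isArc (tgt (y.2 a)) w) = b2
    cases b1 <;> cases b2 <;> simp only [cond_true, cond_false] <;> omega

theorem fv_lip_walk {n a : ℕ} (ha : a < n) {T : ℤ} (hT : upd a T) (w : ZMod 5) {x y : St}
    (p : (G n).Walk x y) : |fv n a T w x - fv n a T w y| ≤ p.length := by
  induction p with
  | nil => simp
  | @cons x x' y h p ih =>
    rw [SimpleGraph.Walk.length_cons]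
    push_cast
    have h1 : |fv n a T w x - fv n a T w x'| ≤ 1 := by
      rw [adj_iff] at h
      rcases h.2 with h' | h'
      · exact fv_lip_up ha hT w h'
      · rw [abs_sub_comm]
        exact fv_lip_up ha hT w h'
    calc |fv n a T w x - fv n a T w y| ≤ |fv n a T w x - fv n a T w x'| + |fv n a T w x' - fv n a T w y| :=
          abs_sub_le _ _ _
      _ ≤ p.length + 1 := by linarith

/-- One of the two possible next vertices is far from `x`. -/
theorem fv_dodge {n a : ℕ} (ha : a < n) (T : ℤ) (w : ZMod 5) (x : St) :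
    2 * 2 ^ a + min (fv n a T w x) (2 ^ a) - 1 ≤ fv n a (T + 2 * 2 ^ a) (2 * w) x ∨
    2 * 2 ^ a + min (fv n a T w x) (2 ^ a) - 1 ≤ fv n a (T + 2 * 2 ^ a) (2 * w + 1) x := by
  obtain ⟨h1, h2⟩ := pow_facts ha
  obtain ⟨h3, h4⟩ := bmod_bounds n (T - x.1)
  obtain ⟨h5, h6⟩ := bmod_bounds n (T + 2 * 2 ^ a - x.1)
  have hB1 : 1 ≤ Int.bmod (T + 2 * 2 ^ a - x.1) (2 ^ (n + 2)) →
      Int.bmod (T - x.1) (2 ^ (n + 2)) = Int.bmod (T + 2 * 2 ^ a - x.1) (2 ^ (n + 2)) - 2 * 2 ^ a := by
    intro h
    apply bmod_eq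
    · linarith
    · linarith
    · have := bmod_dvd n (T + 2 * 2 ^ a - x.1)
      have e : T - x.1 - (Int.bmod (T + 2 * 2 ^ a - x.1) (2 ^ (n + 2)) - 2 * 2 ^ a) =
        T + 2 * 2 ^ a - x.1 - Int.bmod (T + 2 * 2 ^ a - x.1) (2 ^ (n + 2)) := by ring
      rwa [e]
  have hx := isArc_self (x.2 a)
  unfold fv
  generalize Int.bmod (T + 2 * 2 ^ a - x.1) (2 ^ (n + 2)) = v at *
  generalize Int.bmod (T - x.1) (2 ^ (n + 2)) = u at *
  generalize (2 : ℤ) ^ a = A at *
  generalize (2 : ℤ) ^ n = B at *
  have hne := two_ne w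
  by_cases c1 : 1 ≤ v
  · have hu := hB1 c1
    subst hu
    by_cases c2 : v ≤ 2 * A
    · rw [shp_a c1 c2, shp_a c1 c2]
      by_cases d1 : isArc (src (x.2 a)) (2 * w)
      · by_cases d2 : isArc (src (x.2 a)) (2 * w + 1)
        · have d3 := isArc_in _ _ d1 d2
          rw [shp_c (by omega) (by omega)]
          rcases tgt_of_src _ _ d3 with d4 | d4
          · right
            have d5 : tgt (x.2 a) ≠ 2 * w + 1 := by rw [d4]; exact hne
            rw [d3] at d2
            simp only [d5, d2, d3, decide_true, decide_false, cond_true, cond_false]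
            omega
          · left
            have d5 : tgt (x.2 a) ≠ 2 * w := by rw [d4]; exact hne.symm
            rw [d3] at d1
            simp only [d5, d1, d3, decide_true, decide_false, cond_true, cond_false]
            omega
        · right
          have d5 : tgt (x.2 a) ≠ 2 * w + 1 := by
            intro h
            exact d2 (h ▸ hx)
          simp only [d5, d2, decide_false, cond_false]
          omega
      · left
        have d5 : tgt (x.2 a) ≠ 2 * w := by
          intro h
          exact d1 (h ▸ hx)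
        simp only [d5, d1, decide_false, cond_false]
        omega
    · rw [shp_b c1 (by omega), shp_b c1 (by omega)]
      by_cases d1 : isArc (tgt (x.2 a)) (2 * w)
      · by_cases d2 : isArc (tgt (x.2 a)) (2 * w + 1)
        · have d3 := isArc_in _ _ d1 d2
          left
          by_cases c3 : v - 2 * A ≤ 2 * A
          · rw [shp_a (by omega) c3]
            rw [d3] at d1
            simp only [d1, d3, decide_true, cond_true]
            omega
          · simp only [d1, decide_true, cond_true]
            omega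
        · right
          simp only [d2, decide_false, cond_false]
          omega
      · left
        simp only [d1, decide_false, cond_false]
        omega
  · by_cases c2 : -(2 * A) < v
    · rw [shp_c (by omega) c2, shp_c (by omega) c2]
      by_cases d1 : isArc (2 * w) (tgt (x.2 a))
      · right
        have d2 : ¬ isArc (2 * w + 1) (tgt (x.2 a)) := fun h => isArc_out _ _ d1 h
        have d3 : src (x.2 a) ≠ 2 * w + 1 := by
          intro h
          exact d2 (h ▸ hx)
        simp only [d3, d2, decide_false, cond_false]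
        omega
      · left
        have d3 : src (x.2 a) ≠ 2 * w := by
          intro h
          exact d1 (h ▸ hx)
        simp only [d3, d1, decide_false, cond_false]
        omega
    · rw [shp_d (u := v) (by omega) (by omega), shp_d (u := v) (by omega) (by omega)]
      by_cases d1 : isArc (2 * w) (src (x.2 a))
      · right
        have d2 : ¬ isArc (2 * w + 1) (src (x.2 a)) := fun h => isArc_out _ _ d1 h
        simp only [d2, decide_false, cond_false]
        omega
      · left
        simp only [d1, decide_false, cond_false]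
        omega

end Pool.Agent.H14Cops
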