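import Mathlib

/-!
Ultralimits of a sequence of uniformly bounded pseudometrics on one fixed type.
-/

open Filter Topology

namespace Pool.Agent.H14Cops

/-- A non-principal ultrafilter on the naturals. -/
noncomputable def U : Ultrafilter ℕ := hyperfilter ℕ

theorem U_le : (U : Filter ℕ) ≤ atTop := by
  unfold U
  exact Nat.hyperfilter_le_atTop

/-- A sequence of uniformly bounded pseudometrics on one type. -/
structure Tower (S : Type) where
  d : ℕ → S → S → ℝ
  self : ∀ n x, d n x x = 0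
  symm : ∀ n x y, d n x y = d n y x
  tri : ∀ n x y z, d n x z ≤ d n x y + d n y z
  D : ℝ
  bdd : ∀ n x y, d n x y ≤ D

theorem Tower.nonneg {S : Type} (T : Tower S) (n : ℕ) (x y : S) : 0 ≤ T.d n x y := by
  have h1 := T.tri n x y x
  rw [T.self, T.symm n y x] at h1
  linarith

/-- The set of points of the ultralimit before identification. -/
def Tower.P {S : Type} (_T : Tower S) : Type := ℕ → S

theorem exists_ulim (f : ℕ → ℝ) (a b : ℝ) (h : ∀ n, f n ∈ Set.Icc a b) :
    ∃ l : ℝ, Tendsto f U (𝓝 l) := by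
  have h1 : (U.map f : Filter ℝ) ≤ 𝓟 (Set.Icc a b) := by
    rw [le_principal_iff]
    apply mem_map.2
    exact univ_mem' h
  obtain ⟨l, -, hl⟩ := isCompact_Icc.ultrafilter_le_nhds (U.map f) h1
  exact ⟨l, hl⟩

open Classical in
/-- The limit along the ultrafilter (junk value 0 if there is none). -/
noncomputable def ulim (f : ℕ → ℝ) : ℝ :=
  if h : ∃ l : ℝ, Tendsto f U (𝓝 l) then h.choose else 0

theorem tendsto_ulim {f : ℕ → ℝ} {a b : ℝ} (h : ∀ n, f n ∈ Set.Icc a b) :
    Tendsto f U (𝓝 (ulim f)) := by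
  have h1 := exists_ulim f a b h
  unfold ulim
  rw [dif_pos h1]
  exact h1.choose_spec

variable {S : Type} (T : Tower S)

/-- The ultralimit distance. -/
noncomputable def Tower.dst (x y : T.P) : ℝ := ulim (fun n => T.d n (x n) (y n))

theorem Tower.tendsto_dst (x y : T.P) :
    Tendsto (fun n => T.d n (x n) (y n)) U (𝓝 (T.dst x y)) :=
  tendsto_ulim (a := 0) (b := T.D) (fun n => ⟨T.nonneg n _ _, T.bdd n _ _⟩)

noncomputable instance Tower.instP : PseudoMetricSpace T.P where
  dist := T.dst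
  dist_self x := by
    have h := T.tendsto_dst x x
    simp only [T.self] at h
    exact tendsto_nhds_unique h tendsto_const_nhds
  dist_comm x y := by
    have h := T.tendsto_dst x y
    have h' := T.tendsto_dst y x
    simp only [T.symm _ (y _) (x _)] at h'
    exact tendsto_nhds_unique h h'
  dist_triangle x y z := by
    exact le_of_tendsto_of_tendsto' (T.tendsto_dst x z)
      ((T.tendsto_dst x y).add (T.tendsto_dst y z)) (fun n => T.tri n _ _ _)

theorem Tower.tendsto_dist (x y : T.P) :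
    Tendsto (fun n => T.d n (x n) (y n)) U (𝓝 (dist x y)) := T.tendsto_dst x y

theorem Tower.dist_le_of {x y : T.P} {r : ℝ} (h : ∀ᶠ n in (U : Filter ℕ), T.d n (x n) (y n) ≤ r) :
    dist x y ≤ r :=
  le_of_tendsto (T.tendsto_dist x y) h

theorem Tower.ev_lt_of {x y : T.P} {r : ℝ} (h : dist x y < r) :
    ∀ᶠ n in (U : Filter ℕ), T.d n (x n) (y n) < r :=
  (T.tendsto_dist x y).eventually_lt_const h

theorem Tower.dist_le_D (x y : T.P) : dist x y ≤ T.D :=
  T.dist_le_of (Eventually.of_forall fun n => T.bdd n _ _)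

/-- The ultralimit is complete. -/
instance Tower.instComplete : CompleteSpace T.P := by
  apply Metric.complete_of_convergent_controlled_sequences (fun n => (1 / 2 : ℝ) ^ n)
    (fun n => by positivity)
  intro u hu
  classical
  let Q : ℕ → ℕ → Prop := fun n j => ∀ i ≤ j, T.d n (u i n) (u j n) < (1 / 2 : ℝ) ^ i
  let J : ℕ → ℕ := fun n => Nat.findGreatest (Q n) n
  let x : T.P := fun n => u (J n) n
  refine ⟨x, ?_⟩
  have hQ0 : ∀ n, Q n 0 := by
    intro n i hi
    have : i = 0 := by omega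
    subst this
    rw [T.self]
    norm_num
  have hQJ : ∀ n, Q n (J n) := by
    intro n
    exact Nat.findGreatest_spec (P := Q n) (Nat.zero_le n) (hQ0 n)
  have key : ∀ i, dist (u i) x ≤ (1 / 2 : ℝ) ^ i := by
    intro i
    apply T.dist_le_of
    have h1 : ∀ᶠ n in (U : Filter ℕ), i ≤ n := U_le (eventually_ge_atTop i)
    have h2 : ∀ᶠ n in (U : Filter ℕ), Q n i := by
      have : ∀ᶠ n in (U : Filter ℕ), ∀ i' ∈ Finset.range (i + 1),
          T.d n (u i' n) (u i n) < (1 / 2 : ℝ) ^ i' := by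
        rw [eventually_all_finset]
        intro i' hi'
        apply T.ev_lt_of
        exact hu i' i' i le_rfl (by simpa [Nat.lt_succ_iff] using hi')
      filter_upwards [this] with n hn i' hi'
      exact hn i' (by simpa [Nat.lt_succ_iff] using hi')
    filter_upwards [h1, h2] with n hn1 hn2
    have h3 : i ≤ J n := Nat.le_findGreatest hn1 hn2
    exact (hQJ n i h3).le
  rw [tendsto_iff_dist_tendsto_zero]
  refine squeeze_zero (fun n => dist_nonneg) key ?_
  exact tendsto_pow_atTop_nhds_zero_of_lt_one (by norm_num) (by norm_num)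

/-- Uniform doubling along the tower passes to the ultralimit. -/
theorem Tower.doubling (N : ℕ)
    (H : ∀ r : ℝ, 0 < r → ∀ᶠ n in (atTop : Filter ℕ), ∀ x : S, ∃ c : Fin N → S,
      ∀ y, T.d n x y < r → ∃ i, T.d n (c i) y ≤ r / 4)
    (x : T.P) (r : ℝ) (hr : 0 < r) :
    ∃ c : Fin N → T.P, ∀ y : T.P, dist x y < r → ∃ i, dist (c i) y ≤ r / 4 := by
  classical
  have H1 := H r hr
  have H2 : ∀ n, ∃ c : Fin N → S, (∀ x : S, ∃ c : Fin N → S,
      ∀ y, T.d n x y < r → ∃ i, T.d n (c i) y ≤ r / 4) →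
      ∀ y, T.d n (x n) y < r → ∃ i, T.d n (c i) y ≤ r / 4 := by
    intro n
    by_cases h : (∀ x : S, ∃ c : Fin N → S,
      ∀ y, T.d n x y < r → ∃ i, T.d n (c i) y ≤ r / 4)
    · obtain ⟨c, hc⟩ := h (x n)
      exact ⟨c, fun _ => hc⟩
    · exact ⟨fun _ => x n, fun h' => absurd h' h⟩
  choose c hc using H2
  refine ⟨fun i => (fun n => c n i : ℕ → S), ?_⟩
  intro y hy
  have h1 := T.ev_lt_of hy
  have h2 : ∀ᶠ n in (U : Filter ℕ), ∃ i : Fin N, T.d n (c n i) (y n) ≤ r / 4 := by
    filter_upwards [U_le H1, h1] with n hn1 hn2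
    exact hc n hn1 (y n) hn2
  have h3 : ∃ i : Fin N, ∀ᶠ n in (U : Filter ℕ), T.d n (c n i) (y n) ≤ r / 4 := by
    by_contra hcon
    have h4 : ∀ᶠ n in (U : Filter ℕ), ∀ i : Fin N, ¬ T.d n (c n i) (y n) ≤ r / 4 := by
      rw [eventually_all]
      intro i
      exact Ultrafilter.eventually_not.2 (not_exists.1 hcon i)
    obtain ⟨n, hn1, hn2⟩ := (h2.and h4).exists
    obtain ⟨i, hi⟩ := hn1
    exact hn2 i hi
  obtain ⟨i, hi⟩ := h3
  exact ⟨i, T.dist_le_of hi⟩

/-- Approximate geodesics in the tower give geodesics in the ultralimit. -/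
theorem Tower.geodesic (e : ℕ → ℝ) (he : Tendsto e atTop (𝓝 0))
    (H : ∀ n (x y : S), ∃ g : ℝ → S, g 0 = x ∧ g 1 = y ∧
      ∀ s ∈ Set.Icc (0 : ℝ) 1, ∀ t ∈ Set.Icc (0 : ℝ) 1,
        |T.d n (g s) (g t) - |s - t| * T.d n x y| ≤ e n)
    (x y : T.P) :
    ∃ γ : ℝ → T.P, γ 0 = x ∧ γ 1 = y ∧
      ∀ s ∈ Set.Icc (0 : ℝ) 1, ∀ t ∈ Set.Icc (0 : ℝ) 1, dist (γ s) (γ t) = |s - t| * dist x y := by
  choose g hg0 hg1 hg using H
  refine ⟨fun s => (fun n => g n (x n) (y n) s : ℕ → S), ?_, ?_, ?_⟩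
  · funext n
    exact hg0 n _ _
  · funext n
    exact hg1 n _ _
  · intro s hs t ht
    have h1 := T.tendsto_dist (fun n => g n (x n) (y n) s : ℕ → S) (fun n => g n (x n) (y n) t : ℕ → S)
    have h2 := (T.tendsto_dist x y).const_mul |s - t|
    have h3 := h1.sub h2
    have h4 : Tendsto (fun n => T.d n (g n (x n) (y n) s) (g n (x n) (y n) t)
        - |s - t| * T.d n (x n) (y n)) U (𝓝 0) := by
      apply squeeze_zero_norm (a := e) _ (he.mono_left U_le)
      intro n
      rw [Real.norm_eq_abs]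
      exact hg n (x n) (y n) s hs t ht
    have h5 := tendsto_nhds_unique h3 h4
    linarith

end Pool.Agent.H14Cops
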