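import Pool.Agent.H14Cops.Graph
import Pool.Agent.H14Cops.UltraLimit

/-!
Uniform doubling and approximate geodesics of the stage graphs, and the resulting tower.
-/

open Filter Topology

namespace Pool.Agent.H14Cops

/-- Lifting a walk to integer heights. -/
theorem walk_lift {n : ℕ} {x y : St} (p : (G n).Walk x y) :
    ∃ u : ℤ, |u| ≤ p.length ∧ (2 : ℤ) ^ (n + 2) ∣ y.1 - (x.1 + u) ∧
      ∀ a < n, (∀ T : ℤ, x.1 - p.length < T → T ≤ x.1 + p.length → ¬ upd a T) → y.2 a = x.2 a := by
  induction p with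
  | nil => exact ⟨0, by simp, by simp, fun a _ _ => rfl⟩
  | @cons x x' y h p ih =>
    obtain ⟨u, hu1, hu2, hu3⟩ := ih
    rw [adj_iff] at h
    rcases h.2 with h' | h'
    · refine ⟨u + 1, ?_, ?_, ?_⟩
      · rw [SimpleGraph.Walk.length_cons]
        push_cast
        calc |u + 1| ≤ |u| + |1| := abs_add_le _ _
          _ ≤ p.length + 1 := by rw [abs_one]; linarith
      · have : y.1 - (x.1 + (u + 1)) = (y.1 - (x'.1 + u)) + (x'.1 - x.1 - 1) := by ring
        rw [this]
        exact dvd_add hu2 h'.1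
      · intro a ha hT
        rw [SimpleGraph.Walk.length_cons] at hT
        push_cast at hT
        rw [hu3 a ha]
        · have h1 := h'.2 a ha
          rw [if_neg] at h1
          · exact h1
          · have h2 : upd a x'.1 ↔ upd a (x.1 + 1) := upd_congr ha (by
              have : x'.1 - (x.1 + 1) = x'.1 - x.1 - 1 := by ring
              rw [this]
              exact h'.1)
            rw [h2]
            apply hT
            · have : (0 : ℤ) ≤ p.length := by positivity
              linarith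
            · have : (0 : ℤ) ≤ p.length := by positivity
              linarith
        · intro T hT1 hT2
          have h2 : upd a T ↔ upd a (T - (x'.1 - x.1 - 1)) := upd_congr ha (by
              have : T - (T - (x'.1 - x.1 - 1)) = x'.1 - x.1 - 1 := by ring
              rw [this]
              exact h'.1)
          rw [h2]
          apply hT
          · linarith
          · linarith
    · refine ⟨u - 1, ?_, ?_, ?_⟩
      · rw [SimpleGraph.Walk.length_cons]
        push_cast
        calc |u - 1| ≤ |u| + |1| := abs_sub _ _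
          _ ≤ p.length + 1 := by rw [abs_one]; linarith
      · have : y.1 - (x.1 + (u - 1)) = (y.1 - (x'.1 + u)) - (x.1 - x'.1 - 1) := by ring
        rw [this]
        exact dvd_sub hu2 h'.1
      · intro a ha hT
        rw [SimpleGraph.Walk.length_cons] at hT
        push_cast at hT
        rw [hu3 a ha]
        · have h1 := h'.2 a ha
          rw [if_neg] at h1
          · exact h1.symm
          · apply hT
            · have : (0 : ℤ) ≤ p.length := by positivity
              linarith
            · have : (0 : ℤ) ≤ p.length := by positivity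
              linarith
        · intro T hT1 hT2
          have h2 : upd a T ↔ upd a (T + (x.1 - x'.1 - 1)) := upd_congr ha (by
              have : T - (T + (x.1 - x'.1 - 1)) = -(x.1 - x'.1 - 1) := by ring
              rw [this, dvd_neg]
              exact h'.1)
          rw [h2]
          apply hT
          · linarith
          · linarith

theorem upd_dvd {a : ℕ} {T : ℤ} (h : upd a T) : (2 : ℤ) ^ a ∣ T := by
  unfold upd at h
  have h1 : (2 : ℤ) ^ (a + 1) ∣ T - 2 ^ a := by
    have := Int.dvd_self_sub_emod (x := T) (m := (2 : ℤ) ^ (a + 1))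
    rwa [h] at this
  have h2 : (2 : ℤ) ^ a ∣ T - 2 ^ a := dvd_trans (pow_dvd_pow 2 (by omega)) h1
  have h3 := dvd_add h2 (dvd_refl _)
  rwa [sub_add_cancel] at h3

theorem upd_unique_aux {a b : ℕ} {T : ℤ} (ha : upd a T) (hb : upd b T) (hab : a < b) : False := by
  have h1 := upd_dvd hb
  have h2 : (2 : ℤ) ^ (a + 1) ∣ T := dvd_trans (pow_dvd_pow 2 (by omega)) h1
  unfold upd at ha
  rw [Int.emod_eq_zero_of_dvd h2] at ha
  have : (0 : ℤ) < 2 ^ a := by positivity
  linarith

theorem upd_unique {a b : ℕ} {T : ℤ} (ha : upd a T) (hb : upd b T) : a = b := by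
  rcases lt_trichotomy a b with h | h | h
  · exact (upd_unique_aux ha hb h).elim
  · exact h
  · exact (upd_unique_aux hb ha h).elim

/-- At most one coarse level has a vertex height in a window. -/
theorem coarse_unique (j : ℕ) (t : ℤ) : ∃ b : ℕ, ∀ a, j < a → a ≠ b →
    ∀ T : ℤ, t - 2 ^ j < T → T ≤ t + 2 ^ j → ¬ upd a T := by
  classical
  by_cases h : ∃ b, j < b ∧ ∃ T : ℤ, t - 2 ^ j < T ∧ T ≤ t + 2 ^ j ∧ upd b T
  · obtain ⟨b, hb, T0, h1, h2, h3⟩ := h
    refine ⟨b, ?_⟩
    intro a ha hab T h4 h5 h6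
    have h7 : (2 : ℤ) ^ (j + 1) ∣ T0 := dvd_trans (pow_dvd_pow 2 (by omega)) (upd_dvd h3)
    have h8 : (2 : ℤ) ^ (j + 1) ∣ T := dvd_trans (pow_dvd_pow 2 (by omega)) (upd_dvd h6)
    have h9 : |T - T0| < 2 ^ (j + 1) := by
      rw [abs_lt, pow_succ]
      constructor <;> linarith
    have h10 := Int.eq_zero_of_abs_lt_dvd (dvd_sub h8 h7) h9
    have h11 : T = T0 := by linarith
    subst h11
    exact hab (upd_unique h6 h3)
  · refine ⟨0, ?_⟩
    intro a ha _ T h1 h2 h3
    exact h ⟨a, ha, T, h1, h2, h3⟩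

/-- The finite type of clusters. -/
abbrev Clu (c : ℕ) : Type := Fin (2 ^ (c + 1) + 2) × (Fin (c + 1) → E) × E

/-- Two states over nearby integer heights, with no coarse crossing between them. -/
theorem W_same_block (n q : ℕ) (x z : St) (h1 : x.1 ≤ z.1) (h2 : x.1 / 2 ^ q = z.1 / 2 ^ q)
    (h3 : ∀ a, q ≤ a → a < n → x.2 a = z.2 a) : W n x z (17 * 2 ^ q) := by
  have hA : (0 : ℤ) < 2 ^ q := by positivity
  have e1 := Int.mul_ediv_add_emod x.1 (2 ^ q)
  have e2 := Int.mul_ediv_add_emod z.1 (2 ^ q)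
  have e3 := Int.emod_nonneg x.1 hA.ne'
  have e4 := Int.emod_lt_of_pos z.1 hA
  have e5 := Int.emod_nonneg z.1 hA.ne'
  have e6 := Int.emod_lt_of_pos x.1 hA
  have hd : z.1 - x.1 < 2 ^ q := by
    rw [h2] at e1
    linarith
  obtain ⟨m, hm⟩ := Int.eq_ofNat_of_zero_le (sub_nonneg.2 h1)
  have h4 := W_run n (fun _ => false) x m
  have h5 : (run (fun _ => false) x m).1 = z.1 := by
    rw [run_fst]
    have : z.1 - x.1 = (m : ℤ) := hm
    linarith
  have h6 : W n (run (fun _ => false) x m) z (16 * 2 ^ q) := by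
    apply W_claim n q _ _ h5
    intro a ha1 ha2
    rw [run_snd_of_no_upd, h3 a ha1 ha2]
    intro T hT1 hT2 hT3
    have h7 : (2 : ℤ) ^ q ∣ T := dvd_trans (pow_dvd_pow 2 ha1) (upd_dvd hT3)
    obtain ⟨k, hk⟩ := h7
    have hT4 : T ≤ z.1 := by
      have : z.1 - x.1 = (m : ℤ) := hm
      linarith
    have h8 : x.1 / 2 ^ q < k := by
      by_contra hcon
      push Not at hcon
      have := mul_le_mul_of_nonneg_left hcon hA.le
      linarith
    have h9 : k ≤ z.1 / 2 ^ q := by
      rw [Int.le_ediv_iff_mul_le hA]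
      linarith
    linarith
  refine (h4.trans h6).mono ?_
  have h10 : (m : ℤ) < ((2 ^ q : ℕ) : ℤ) := by
    push_cast
    have : z.1 - x.1 = (m : ℤ) := hm
    linarith
  have h11 : m < 2 ^ q := by exact_mod_cast h10
  omega

/-- Balls of radius `2 ^ (q + c)` are covered by boundedly many balls of radius `17 * 2 ^ q + 4`. -/
theorem cover (n q c : ℕ) (x : St) : ∃ f : Clu c → St, ∀ y, W n x y (2 ^ (q + c)) →
    ∃ k, W n (f k) y (17 * 2 ^ q + 4) := by
  classical
  obtain ⟨b, hb⟩ := coarse_unique (q + c) x.1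
  -- the integer lift of the height
  have hlift : ∀ y, ∃ u : ℤ, W n x y (2 ^ (q + c)) → (|u| ≤ 2 ^ (q + c) ∧
      (2 : ℤ) ^ (n + 2) ∣ y.1 - (x.1 + u) ∧
      ∀ a < n, q + c < a → a ≠ b → y.2 a = x.2 a) := by
    intro y
    by_cases h : W n x y (2 ^ (q + c))
    · obtain ⟨p, hp⟩ := h
      obtain ⟨u, h1, h2, h3⟩ := walk_lift p
      have hp' : (p.length : ℤ) ≤ 2 ^ (q + c) := by exact_mod_cast hp
      refine ⟨u, fun _ => ⟨h1.trans hp', h2, ?_⟩⟩
      intro a ha hac hab
      apply h3 a ha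
      intro T hT1 hT2
      exact hb a hac hab T (by linarith) (by linarith)
    · exact ⟨0, fun h' => absurd h' h⟩
  choose u hu using hlift
  have hA : (0 : ℤ) < 2 ^ q := by positivity
  let blk : St → ℤ := fun y => (x.1 + u y) / 2 ^ q - (x.1 - 2 ^ (q + c)) / 2 ^ q
  let κ : St → Clu c := fun y =>
    (Fin.ofNat _ (blk y).toNat, fun i => y.2 (q + i), y.2 b)
  let f : Clu c → St := fun k => if h : ∃ y, W n x y (2 ^ (q + c)) ∧ κ y = k then h.choose else x
  refine ⟨f, ?_⟩
  intro y hy
  refine ⟨κ y, ?_⟩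
  have hex : ∃ y', W n x y' (2 ^ (q + c)) ∧ κ y' = κ y := ⟨y, hy, rfl⟩
  have hf : f (κ y) = hex.choose := by
    simp only [f]
    rw [dif_pos hex]
  rw [hf]
  obtain ⟨hz1, hz2⟩ := hex.choose_spec
  set z := hex.choose with hz
  obtain ⟨y1, y2, y3⟩ := hu y hy
  obtain ⟨z1, z2, z3⟩ := hu z hz1
  -- block numbers are in range
  have hrange : ∀ v : ℤ, |v| ≤ 2 ^ (q + c) →
      0 ≤ (x.1 + v) / 2 ^ q - (x.1 - 2 ^ (q + c)) / 2 ^ q ∧
      (x.1 + v) / 2 ^ q - (x.1 - 2 ^ (q + c)) / 2 ^ q < 2 ^ (c + 1) + 2 := by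
    intro v hv
    rw [abs_le] at hv
    constructor
    · have := Int.ediv_le_ediv hA (show x.1 - 2 ^ (q + c) ≤ x.1 + v by linarith)
      linarith
    · have h1 : x.1 + v ≤ (x.1 - 2 ^ (q + c)) + 2 ^ (c + 1) * 2 ^ q := by
        have : (2 : ℤ) ^ (c + 1) * 2 ^ q = 2 * 2 ^ (q + c) := by ring
        rw [this]
        linarith
      have h2 := Int.ediv_le_ediv hA h1
      rw [Int.add_mul_ediv_right _ _ hA.ne'] at h2
      linarith
  have hblk : blk y = blk z := by
    have h1 := hrange (u y) y1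
    have h2 := hrange (u z) z1
    have h3 : (κ z).1 = (κ y).1 := by rw [hz2]
    simp only [κ] at h3
    have h4 := congrArg Fin.val h3
    simp only [Fin.ofNat] at h4
    have h5 : (blk z).toNat < 2 ^ (c + 1) + 2 := by
      have : ((blk z).toNat : ℤ) < ((2 ^ (c + 1) + 2 : ℕ) : ℤ) := by
        rw [Int.toNat_of_nonneg h2.1]
        push_cast
        exact h2.2
      exact_mod_cast this
    have h6 : (blk y).toNat < 2 ^ (c + 1) + 2 := by
      have : ((blk y).toNat : ℤ) < ((2 ^ (c + 1) + 2 : ℕ) : ℤ) := by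
        rw [Int.toNat_of_nonneg h1.1]
        push_cast
        exact h1.2
      exact_mod_cast this
    rw [Nat.mod_eq_of_lt h5, Nat.mod_eq_of_lt h6] at h4
    have h7 : ((blk z).toNat : ℤ) = (blk y).toNat := by exact_mod_cast h4
    rw [Int.toNat_of_nonneg h2.1, Int.toNat_of_nonneg h1.1] at h7
    exact h7.symm
  have hdiv : (x.1 + u y) / 2 ^ q = (x.1 + u z) / 2 ^ q := by
    simp only [blk] at hblk
    linarith
  have hco : ∀ a, q ≤ a → a < n → z.2 a = y.2 a := by
    intro a ha1 ha2
    by_cases hac : a ≤ q + c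
    · have h3 : (κ z).2.1 ⟨a - q, by omega⟩ = (κ y).2.1 ⟨a - q, by omega⟩ := by rw [hz2]
      simp only [κ] at h3
      rwa [show q + (a - q) = a by omega] at h3
    · by_cases hab : a = b
      · have h3 : (κ z).2.2 = (κ y).2.2 := by rw [hz2]
        simp only [κ] at h3
        rw [hab]
        exact h3
      · rw [y3 a ha2 (by omega) hab, z3 a ha2 (by omega) hab]
  have hy' : W n (x.1 + u y, y.2) y 2 := W_cls y2 fun a _ => rfl
  have hz' : W n (x.1 + u z, z.2) z 2 := W_cls z2 fun a _ => rfl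
  have hmid : W n (x.1 + u z, z.2) (x.1 + u y, y.2) (17 * 2 ^ q) := by
    rcases le_total (x.1 + u z) (x.1 + u y) with h | h
    · exact W_same_block n q (x.1 + u z, z.2) (x.1 + u y, y.2) h hdiv.symm hco
    · exact (W_same_block n q (x.1 + u y, y.2) (x.1 + u z, z.2) h hdiv
        fun a h1 h2 => (hco a h1 h2).symm).symm
  refine ((hz'.symm.trans hmid).trans hy').mono ?_
  omega

/-- The tower of rescaled stage graphs. -/
noncomputable def T : Tower St where
  d n x y := ((G n).dist x y : ℝ) / 2 ^ n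
  self n x := by simp
  symm n x y := by rw [SimpleGraph.dist_comm]
  tri n x y z := by
    rw [← add_div]
    apply div_le_div_of_nonneg_right _ (by positivity)
    exact_mod_cast (G_connected n).dist_triangle
  D := 22
  bdd n x y := by
    rw [div_le_iff₀ (by positivity)]
    exact_mod_cast dist_le_of_W (W_diam n x y)

theorem T_d (n : ℕ) (x y : St) : T.d n x y = ((G n).dist x y : ℝ) / 2 ^ n := rfl

theorem T_le_of_W {n : ℕ} {x y : St} {k : ℕ} (h : W n x y k) : T.d n x y ≤ k / 2 ^ n := by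
  rw [T_d]
  apply div_le_div_of_nonneg_right _ (by positivity)
  exact_mod_cast dist_le_of_W h

/-- The doubling number. -/
def Ndoub : ℕ := Fintype.card (Clu 8)

theorem T_doubling (r : ℝ) (hr : 0 < r) : ∀ᶠ n in (atTop : Filter ℕ), ∀ x : St,
    ∃ c : Fin Ndoub → St, ∀ y, T.d n x y < r → ∃ i, T.d n (c i) y ≤ r / 4 := by
  have h1 : Tendsto (fun n : ℕ => r * 2 ^ n) atTop atTop :=
    Tendsto.const_mul_atTop hr (tendsto_pow_atTop_atTop_of_one_lt (by norm_num))
  filter_upwards [h1.eventually_ge_atTop 256] with n hn x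
  obtain ⟨j, hj1, hj2⟩ := exists_nat_pow_near (show (1 : ℝ) ≤ r * 2 ^ n by linarith)
    (show (1 : ℝ) < 2 by norm_num)
  have hj3 : 7 ≤ j := by
    by_contra hcon
    push Not at hcon
    have : (2 : ℝ) ^ (j + 1) ≤ 2 ^ 7 := pow_le_pow_right₀ (by norm_num) (by omega)
    norm_num at this
    linarith
  obtain ⟨q, hq⟩ : ∃ q, j + 1 = q + 8 := ⟨j - 7, by omega⟩
  obtain ⟨f, hf⟩ := cover n q 8 x
  refine ⟨fun i => f ((Fintype.equivFin (Clu 8)).symm i), ?_⟩
  intro y hy
  have h2 : W n x y (2 ^ (q + 8)) := by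
    refine (W_dist n x y).mono ?_
    rw [T_d, div_lt_iff₀ (by positivity)] at hy
    have h3 : ((G n).dist x y : ℝ) < ((2 ^ (q + 8) : ℕ) : ℝ) := by
      push_cast
      rw [← hq]
      linarith
    exact_mod_cast h3.le
  obtain ⟨k, hk⟩ := hf y h2
  refine ⟨Fintype.equivFin (Clu 8) k, ?_⟩
  simp only [Equiv.symm_apply_apply]
  refine (T_le_of_W hk).trans ?_
  rw [div_le_iff₀ (by positivity)]
  push_cast
  have h4 : (2 : ℝ) ^ j = 2 ^ q * 128 := by
    have : j = q + 7 := by omega
    rw [this, pow_add]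
    norm_num
  rw [h4] at hj1
  linarith

theorem W_getVert {n : ℕ} {x y : St} (p : (G n).Walk x y) (i : ℕ) :
    ∀ k, i + k ≤ p.length → W n (p.getVert i) (p.getVert (i + k)) k := by
  intro k
  induction k with
  | zero => intro _; exact W.refl n _
  | succ k ih =>
    intro h
    have h1 := ih (by omega)
    have h2 := p.adj_getVert_succ (i := i + k) (by omega)
    exact h1.trans ⟨SimpleGraph.Walk.cons h2 SimpleGraph.Walk.nil, by simp⟩

theorem dist_getVert {n : ℕ} {x y : St} (p : (G n).Walk x y) (hp : p.length = (G n).dist x y)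
    (i k : ℕ) (h : i + k ≤ p.length) : (G n).dist (p.getVert i) (p.getVert (i + k)) = k := by
  apply le_antisymm
  · exact dist_le_of_W (W_getVert p i k h)
  · have h1 := dist_le_of_W (W_getVert p 0 i (by omega))
    have h2 := dist_le_of_W (W_getVert p (i + k) (p.length - (i + k)) (by omega))
    rw [show i + k + (p.length - (i + k)) = p.length by omega, SimpleGraph.Walk.getVert_length] at h2
    rw [SimpleGraph.Walk.getVert_zero, Nat.zero_add] at h1
    have h3 := (G_connected n).dist_triangle (u := x) (v := p.getVert i) (w := p.getVert (i + k))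
    have h4 := (G_connected n).dist_triangle (u := x) (v := p.getVert (i + k)) (w := y)
    omega

theorem T_geodesic (n : ℕ) (x y : St) : ∃ g : ℝ → St, g 0 = x ∧ g 1 = y ∧
      ∀ s ∈ Set.Icc (0 : ℝ) 1, ∀ t ∈ Set.Icc (0 : ℝ) 1,
        |T.d n (g s) (g t) - |s - t| * T.d n x y| ≤ 1 / 2 ^ n := by
  obtain ⟨p, hp⟩ := (G_connected n).exists_walk_length_eq_dist x y
  refine ⟨fun s => p.getVert ⌊s * p.length⌋₊, by simp, by simp, ?_⟩
  -- reduce to `s ≤ t`
  have main : ∀ s ∈ Set.Icc (0 : ℝ) 1, ∀ t ∈ Set.Icc (0 : ℝ) 1, s ≤ t →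
      |T.d n (p.getVert ⌊s * p.length⌋₊) (p.getVert ⌊t * p.length⌋₊) - |s - t| * T.d n x y|
        ≤ 1 / 2 ^ n := by
    intro s hs t ht hst
    have hm : (0 : ℝ) ≤ p.length := by positivity
    have h1 : s * p.length ≤ t * p.length := mul_le_mul_of_nonneg_right hst hm
    have h2 : ⌊s * p.length⌋₊ ≤ ⌊t * p.length⌋₊ := Nat.floor_le_floor h1
    obtain ⟨k, hk⟩ := Nat.exists_eq_add_of_le h2
    have h3 : ⌊t * p.length⌋₊ ≤ p.length := by
      have : t * p.length ≤ p.length := by
        have := mul_le_mul_of_nonneg_right ht.2 hm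
        linarith
      exact Nat.floor_le_of_le this
    have h4 : (G n).dist (p.getVert ⌊s * p.length⌋₊) (p.getVert ⌊t * p.length⌋₊) = k := by
      rw [hk]
      exact dist_getVert p hp _ _ (by omega)
    rw [T_d, T_d, h4, ← hp, abs_of_nonpos (by linarith : s - t ≤ 0)]
    have h5 := Nat.floor_le (mul_nonneg hs.1 hm)
    have h6 := Nat.lt_floor_add_one (s * p.length)
    have h7 := Nat.floor_le (mul_nonneg ht.1 hm)
    have h8 := Nat.lt_floor_add_one (t * p.length)
    rw [hk] at h7 h8
    push_cast at h7 h8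
    have h9 : (k : ℝ) / 2 ^ n - -(s - t) * (p.length / 2 ^ n) =
        (k - (t * p.length - s * p.length)) / 2 ^ n := by ring
    rw [h9, abs_div, abs_of_pos (by positivity : (0 : ℝ) < 2 ^ n)]
    apply div_le_div_of_nonneg_right _ (by positivity)
    rw [abs_le]
    constructor <;> linarith
  intro s hs t ht
  rcases le_total s t with h | h
  · exact main s hs t ht h
  · have := main t ht s hs h
    rwa [T.symm, abs_sub_comm t s] at this

end Pool.Agent.H14Cops
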