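import Mathlib

/-!
The finite-stage graphs.  A state is a height (an integer) together with, for every level `a`, an
arc of the digraph `v → 2 v, 2 v + 1` on `ZMod 5`.  Crossing a height `t` whose 2-adic valuation
is `a` moves the level `a` coordinate to a following arc.
-/

namespace Pool.Agent.H14Cops

/-- Arcs of the digraph `v → 2 v, 2 v + 1` on `ZMod 5`. -/
abbrev E : Type := ZMod 5 × Bool

/-- Starting point of an arc. -/
def src (e : E) : ZMod 5 := e.1

/-- End point of an arc. -/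
def tgt (e : E) : ZMod 5 := 2 * e.1 + (if e.2 then 1 else 0)

/-- The next arc, with a choice. -/
def stp (e : E) (b : Bool) : E := (tgt e, b)

abbrev St : Type := ℤ × (ℕ → E)

/-- Height `t` is a vertex height of level `a`. -/
def upd (a : ℕ) (t : ℤ) : Prop := t % 2 ^ (a + 1) = 2 ^ a

instance (a : ℕ) (t : ℤ) : Decidable (upd a t) := by unfold upd; infer_instance

/-- `y` lies one step above `x`, at stage `n`. -/
def up (n : ℕ) (x y : St) : Prop :=
  (2 : ℤ) ^ (n + 2) ∣ (y.1 - x.1 - 1) ∧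
    ∀ a < n, if upd a y.1 then src (y.2 a) = tgt (x.2 a) else y.2 a = x.2 a

/-- The graph of stage `n`. -/
def G (n : ℕ) : SimpleGraph St := SimpleGraph.fromRel (up n)

theorem adj_iff {n : ℕ} {x y : St} : (G n).Adj x y ↔ x ≠ y ∧ (up n x y ∨ up n y x) := Iff.rfl

theorem up_ne {n : ℕ} {x y : St} (h : up n x y) : x ≠ y := by
  rintro rfl
  have h1 := h.1
  rw [sub_self, zero_sub, dvd_neg] at h1
  have h2 : (2 : ℤ) ^ (n + 2) ≤ 1 := Int.le_of_dvd (by norm_num) h1
  have h3 : (1 : ℤ) ≤ 2 ^ n := one_le_pow₀ (by norm_num)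
  rw [pow_add] at h2
  linarith

theorem adj_of_up {n : ℕ} {x y : St} (h : up n x y) : (G n).Adj x y :=
  adj_iff.2 ⟨up_ne h, Or.inl h⟩

/-- There is a walk of length at most `k`. -/
def W (n : ℕ) (x y : St) (k : ℕ) : Prop := ∃ p : (G n).Walk x y, p.length ≤ k

theorem W.refl (n : ℕ) (x : St) : W n x x 0 := ⟨SimpleGraph.Walk.nil, le_rfl⟩

theorem W.symm {n : ℕ} {x y : St} {k : ℕ} (h : W n x y k) : W n y x k := by
  obtain ⟨p, hp⟩ := h
  exact ⟨p.reverse, by rwa [SimpleGraph.Walk.length_reverse]⟩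

theorem W.trans {n : ℕ} {x y z : St} {k l : ℕ} (h : W n x y k) (h' : W n y z l) :
    W n x z (k + l) := by
  obtain ⟨p, hp⟩ := h
  obtain ⟨q, hq⟩ := h'
  exact ⟨p.append q, by rw [SimpleGraph.Walk.length_append]; omega⟩

theorem W.mono {n : ℕ} {x y : St} {k l : ℕ} (h : W n x y k) (hkl : k ≤ l) : W n x y l := by
  obtain ⟨p, hp⟩ := h
  exact ⟨p, hp.trans hkl⟩

theorem W.of_up {n : ℕ} {x y : St} (h : up n x y) : W n x y 1 :=
  ⟨SimpleGraph.Walk.cons (adj_of_up h) SimpleGraph.Walk.nil, by simp⟩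

/-- Run upwards, always taking the choice `δ a` at level `a`. -/
def run (δ : ℕ → Bool) (x : St) : ℕ → St
  | 0 => x
  | m + 1 => ((run δ x m).1 + 1,
      fun a => if upd a ((run δ x m).1 + 1) then stp ((run δ x m).2 a) (δ a) else (run δ x m).2 a)

theorem run_fst (δ : ℕ → Bool) (x : St) (m : ℕ) : (run δ x m).1 = x.1 + m := by
  induction m with
  | zero => simp [run]
  | succ m ih => simp [run, ih]; ring

theorem up_run (n : ℕ) (δ : ℕ → Bool) (x : St) (m : ℕ) : up n (run δ x m) (run δ x (m + 1)) := by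
  refine ⟨by simp [run], ?_⟩
  intro a _
  simp only [run]
  split_ifs with h
  · simp [src, stp]
  · rfl

theorem W_run (n : ℕ) (δ : ℕ → Bool) (x : St) (m : ℕ) : W n x (run δ x m) m := by
  induction m with
  | zero => exact W.refl n x
  | succ m ih => exact ih.trans (W.of_up (up_run n δ x m))

theorem run_snd_succ (δ : ℕ → Bool) (x : St) (m a : ℕ) :
    (run δ x (m + 1)).2 a =
      if upd a (x.1 + m + 1) then stp ((run δ x m).2 a) (δ a) else (run δ x m).2 a := by
  simp only [run, run_fst]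

theorem run_snd_congr (δ δ' : ℕ → Bool) (x z : St) (a : ℕ) (h1 : x.1 = z.1) (h2 : x.2 a = z.2 a)
    (h3 : δ a = δ' a) (m : ℕ) : (run δ x m).2 a = (run δ' z m).2 a := by
  induction m with
  | zero => simpa [run] using h2
  | succ m ih => rw [run_snd_succ, run_snd_succ, ih, h1, h3]

theorem run_snd_of_no_upd (δ : ℕ → Bool) (x : St) (a : ℕ) (m : ℕ)
    (h : ∀ T : ℤ, x.1 < T → T ≤ x.1 + m → ¬ upd a T) : (run δ x m).2 a = x.2 a := by
  induction m with
  | zero => simp [run]
  | succ m ih =>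
    rw [run_snd_succ, if_neg, ih]
    · intro T hT1 hT2
      exact h T hT1 (by push_cast; linarith)
    · exact h _ (by have : (0 : ℤ) ≤ m := by positivity
                    linarith) (by push_cast; linarith)

theorem upd_congr {n a : ℕ} (ha : a < n) {s t : ℤ} (h : (2 : ℤ) ^ (n + 2) ∣ s - t) :
    upd a s ↔ upd a t := by
  unfold upd
  have h1 : (2 : ℤ) ^ (a + 1) ∣ s - t := dvd_trans (pow_dvd_pow 2 (by omega)) h
  have h2 : s % 2 ^ (a + 1) = t % 2 ^ (a + 1) :=
    Int.emod_eq_emod_iff_emod_sub_eq_zero.2 (Int.emod_eq_zero_of_dvd h1)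
  rw [h2]

theorem exists_upd (q : ℕ) (t : ℤ) : ∃ m0 : ℕ, 1 ≤ m0 ∧ m0 ≤ 2 ^ (q + 1) ∧ upd q (t + m0) ∧
    ∀ m : ℕ, 1 ≤ m → m ≤ 2 ^ (q + 1) → upd q (t + m) → m = m0 := by
  have hA : (0 : ℤ) < 2 ^ (q + 1) := by positivity
  have hB : (2 : ℤ) ^ (q + 1) = 2 * 2 ^ q := by ring
  have hC : (0 : ℤ) < 2 ^ q := by positivity
  set r : ℤ := (2 ^ q - t - 1) % 2 ^ (q + 1) with hr
  have hr0 : 0 ≤ r := Int.emod_nonneg _ hA.ne'
  have hr1 : r < 2 ^ (q + 1) := Int.emod_lt_of_pos _ hA
  have hr2 : (2 : ℤ) ^ (q + 1) ∣ (2 ^ q - t - 1) - r := by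
    rw [hr]
    exact Int.dvd_self_sub_emod
  refine ⟨(r + 1).toNat, by omega, ?_, ?_, ?_⟩
  · have : ((r + 1).toNat : ℤ) ≤ ((2 ^ (q + 1) : ℕ) : ℤ) := by
      rw [Int.toNat_of_nonneg (by omega)]
      push_cast
      omega
    exact_mod_cast this
  · unfold upd
    rw [Int.toNat_of_nonneg (by omega)]
    have : t + (r + 1) = 2 ^ q - ((2 ^ q - t - 1) - r) := by ring
    rw [this, Int.sub_emod, Int.emod_eq_zero_of_dvd hr2, sub_zero, Int.emod_emod_of_dvd _ (dvd_refl _)]
    exact Int.emod_eq_of_lt hC.le (by linarith)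
  · intro m hm1 hm2 hm3
    unfold upd at hm3
    have h1 : (2 : ℤ) ^ (q + 1) ∣ (t + m) - 2 ^ q := by
      have := Int.dvd_self_sub_emod (x := t + m) (m := (2 : ℤ) ^ (q + 1))
      rwa [hm3] at this
    have h2 : (2 : ℤ) ^ (q + 1) ∣ (m : ℤ) - (r + 1) := by
      have := dvd_add h1 hr2
      have h3 : (t + m) - 2 ^ q + ((2 ^ q - t - 1) - r) = (m : ℤ) - (r + 1) := by ring
      rwa [h3] at this
    have h4 : |(m : ℤ) - (r + 1)| < 2 ^ (q + 1) := by
      have h5 : (m : ℤ) ≤ 2 ^ (q + 1) := by exact_mod_cast hm2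
      rw [abs_lt]
      constructor
      · have : (1 : ℤ) ≤ m := by exact_mod_cast hm1
        linarith
      · linarith
    have h5 := Int.eq_zero_of_abs_lt_dvd h2 h4
    omega

/-- After a full period the level `q` coordinate has moved exactly once. -/
theorem run_period (δ : ℕ → Bool) (x : St) (q : ℕ) :
    (run δ x (2 ^ (q + 1))).2 q = stp (x.2 q) (δ q) := by
  obtain ⟨m0, h1, h2, h3, h4⟩ := exists_upd q x.1
  have key : ∀ m : ℕ, m ≤ 2 ^ (q + 1) → (run δ x m).2 q = if m < m0 then x.2 q else stp (x.2 q) (δ q) := by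
    intro m
    induction m with
    | zero => intro _; rw [if_pos (by omega)]; rfl
    | succ m ih =>
      intro hm
      rw [run_snd_succ, ih (by omega)]
      by_cases hmm : m + 1 = m0
      · have : upd q (x.1 + m + 1) := by
          have := h3
          rw [← hmm] at this
          push_cast at this
          rwa [← add_assoc] at this
        rw [if_pos this, if_pos (by omega), if_neg (by omega)]
      · have : ¬ upd q (x.1 + m + 1) := by
          intro h
          apply hmm
          apply h4 (m + 1) (by omega) hm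
          push_cast
          rwa [← add_assoc]
        rw [if_neg this]
        by_cases h5 : m < m0
        · rw [if_pos h5, if_pos (by omega)]
        · rw [if_neg h5, if_neg (by omega)]
  rw [key _ le_rfl, if_neg (by omega)]

theorem four_steps : ∀ e : E, ∃ b1 b2 b3 b4 : Bool,
    stp (stp (stp (stp e b1) b2) b3) b4 = ((0, false) : E) := by
  unfold stp tgt
  decide

theorem W_cls {n : ℕ} {x y : St} (h1 : (2 : ℤ) ^ (n + 2) ∣ y.1 - x.1)
    (h2 : ∀ a < n, x.2 a = y.2 a) : W n x y 2 := by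
  have h3 : up n x (run (fun _ => false) x 1) := up_run n _ x 0
  have h4 : up n y (run (fun _ => false) x 1) := by
    refine ⟨?_, ?_⟩
    · rw [run_fst]
      have : x.1 + ((1 : ℕ) : ℤ) - y.1 - 1 = -(y.1 - x.1) := by push_cast; ring
      rw [this, dvd_neg]
      exact h1
    · intro a ha
      have := h3.2 a ha
      rwa [h2 a ha] at this
  exact (W.of_up h3).trans (W.of_up h4).symm

/-- Choice function used to steer level `q`. -/
def ch (q : ℕ) (b : Bool) : ℕ → Bool := fun a => if a = q then b else false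

theorem W_steer (n q : ℕ) (x : St) : ∃ y : St, W n x y (8 * 2 ^ q) ∧ y.1 = x.1 + 8 * 2 ^ q ∧
    y.2 q = (0, false) ∧ ∀ a, a ≠ q → ∀ z : St, z.1 = x.1 → z.2 a = x.2 a →
      y.2 a = (run (fun _ => false) (run (fun _ => false) (run (fun _ => false) (run (fun _ => false) z
        (2 ^ (q + 1))) (2 ^ (q + 1))) (2 ^ (q + 1))) (2 ^ (q + 1))).2 a := by
  obtain ⟨b1, b2, b3, b4, hb⟩ := four_steps (x.2 q)
  refine ⟨run (ch q b4) (run (ch q b3) (run (ch q b2) (run (ch q b1) x (2 ^ (q + 1)))
    (2 ^ (q + 1))) (2 ^ (q + 1))) (2 ^ (q + 1)), ?_, ?_, ?_, ?_⟩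
  · refine ((((W_run n (ch q b1) x (2 ^ (q + 1))).trans (W_run n (ch q b2) _ (2 ^ (q + 1)))).trans
      (W_run n (ch q b3) _ (2 ^ (q + 1)))).trans (W_run n (ch q b4) _ (2 ^ (q + 1)))).mono ?_
    rw [pow_succ]
    omega
  · simp only [run_fst]
    push_cast
    ring
  · rw [run_period, run_period, run_period, run_period]
    simpa [ch] using hb
  · intro a ha z hz1 hz2
    have e : ∀ b, ch q b a = false := by intro b; simp [ch, ha]
    apply run_snd_congr
    · simp only [run_fst, hz1]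
    · apply run_snd_congr
      · simp only [run_fst, hz1]
      · apply run_snd_congr
        · simp only [run_fst, hz1]
        · apply run_snd_congr
          · exact hz1.symm
          · exact hz2.symm
          · exact e _
        · exact e _
      · exact e _
    · exact e _

/-- Two states of the same height which agree from level `q` on are close. -/
theorem W_claim (n : ℕ) : ∀ (q : ℕ) (x z : St), x.1 = z.1 → (∀ a, q ≤ a → a < n → x.2 a = z.2 a) →
    W n x z (16 * 2 ^ q) := by
  intro q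
  induction q with
  | zero =>
    intro x z h1 h2
    refine (W_cls ?_ fun a ha => h2 a (Nat.zero_le a) ha).mono (by norm_num)
    rw [h1, sub_self]
    exact dvd_zero _
  | succ q ih =>
    intro x z h1 h2
    by_cases hq : q < n
    · obtain ⟨x', hx1, hx2, hx3, hx4⟩ := W_steer n q x
      obtain ⟨z', hz1, hz2, hz3, hz4⟩ := W_steer n q z
      have h3 : W n x' z' (16 * 2 ^ q) := by
        apply ih
        · rw [hx2, hz2, h1]
        · intro a ha1 ha2
          by_cases haq : a = q
          · rw [haq, hx3, hz3]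
          · rw [hx4 a haq x rfl rfl, hz4 a haq x h1 (h2 a (by omega) ha2)]
      refine ((hx1.trans h3).trans hz1.symm).mono ?_
      rw [pow_succ]
      omega
    · refine (ih x z h1 ?_).mono ?_
      · intro a ha1 ha2
        omega
      · rw [pow_succ]
        omega

/-- Any two states are at distance `O(2 ^ n)`. -/
theorem W_diam (n : ℕ) (x z : St) : W n x z (22 * 2 ^ n) := by
  set m : ℤ := (z.1 - x.1) % 2 ^ (n + 2) with hm
  have hA : (0 : ℤ) < 2 ^ (n + 2) := by positivity
  have hm0 : 0 ≤ m := Int.emod_nonneg _ hA.ne'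
  have hm1 : m < 2 ^ (n + 2) := Int.emod_lt_of_pos _ hA
  have hm2 : (2 : ℤ) ^ (n + 2) ∣ (z.1 - x.1) - m := by
    rw [hm]
    exact Int.dvd_self_sub_emod
  have h1 := W_run n (fun _ => false) x m.toNat
  have h1' : m.toNat ≤ 4 * 2 ^ n := by
    have : ((m.toNat : ℕ) : ℤ) ≤ ((4 * 2 ^ n : ℕ) : ℤ) := by
      rw [Int.toNat_of_nonneg hm0]
      push_cast
      rw [pow_add] at hm1
      linarith
    exact_mod_cast this
  have hfst : (run (fun _ => false) x m.toNat).1 = x.1 + m := by
    rw [run_fst, Int.toNat_of_nonneg hm0]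
  have h2 : W n (run (fun _ => false) x m.toNat) (x.1 + m, z.2) (16 * 2 ^ n) := by
    apply W_claim n n
    · exact hfst
    · intro a ha1 ha2
      omega
  have h3 : W n (x.1 + m, z.2) z 2 := by
    apply W_cls
    · have : z.1 - (x.1 + m) = (z.1 - x.1) - m := by ring
      rw [this]
      exact hm2
    · intro a _
      rfl
  refine ((h1.trans h2).trans h3).mono ?_
  have : 1 ≤ 2 ^ n := Nat.one_le_two_pow
  omega

theorem G_connected (n : ℕ) : (G n).Connected := by
  refine ⟨?_⟩
  intro x z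
  obtain ⟨p, _⟩ := W_diam n x z
  exact ⟨p⟩

theorem dist_le_of_W {n : ℕ} {x y : St} {k : ℕ} (h : W n x y k) : (G n).dist x y ≤ k := by
  obtain ⟨p, hp⟩ := h
  exact (SimpleGraph.dist_le p).trans hp

theorem W_dist (n : ℕ) (x y : St) : W n x y ((G n).dist x y) := by
  obtain ⟨p, hp⟩ := (G_connected n).exists_walk_length_eq_dist x y
  exact ⟨p, hp.le⟩

end Pool.Agent.H14Cops
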