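import Pool.Agent.H14Cops.Space

/-!
The strategy of the robber: climb at full speed and dodge cop `i` with the level `i` coordinate.
-/

open Filter Topology

namespace Pool.Agent.H14Cops

variable (J : ℕ)

/-- The dodging function of level `i` on the ultraproduct: distance to the vertex `w` at height
`m / 2 ^ J`. -/
noncomputable def FP (i : ℕ) (m : ℤ) (w : ZMod 5) (x : PP) : ℝ :=
  ulim (fun n => if J ≤ n then (fv n (n - i) (2 ^ (n - J) * m) w (x n) : ℝ) / 2 ^ n else 0)

theorem pow_cast_sub {n i : ℕ} (h : i ≤ n) : (2 : ℝ) ^ (n - i) / 2 ^ n = 1 / 2 ^ i := by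
  rw [div_eq_div_iff (by positivity) (by positivity), ← pow_add, one_mul]
  congr 1
  omega

theorem FP_mem {i : ℕ} (hi : 1 ≤ i) (hiJ : i ≤ J) (m : ℤ) (w : ZMod 5) (x : PP) (n : ℕ) :
    (if J ≤ n then (fv n (n - i) (2 ^ (n - J) * m) w (x n) : ℝ) / 2 ^ n else 0) ∈
      Set.Icc (0 : ℝ) 3 := by
  split_ifs with h
  · obtain ⟨h1, h2⟩ := fv_bounds (n := n) (a := n - i) (by omega) (2 ^ (n - J) * m) w (x n)
    have h1' : (0 : ℝ) ≤ (fv n (n - i) (2 ^ (n - J) * m) w (x n) : ℝ) := by exact_mod_cast h1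
    have h2' : (fv n (n - i) (2 ^ (n - J) * m) w (x n) : ℝ) ≤ 3 * 2 ^ (n - i) := by exact_mod_cast h2
    refine ⟨by positivity, ?_⟩
    rw [div_le_iff₀ (by positivity)]
    have h3 : (2 : ℝ) ^ (n - i) ≤ 2 ^ n := pow_le_pow_right₀ (by norm_num) (by omega)
    linarith
  · constructor <;> norm_num

theorem FP_tendsto {i : ℕ} (hi : 1 ≤ i) (hiJ : i ≤ J) (m : ℤ) (w : ZMod 5) (x : PP) :
    Tendsto (fun n => (fv n (n - i) (2 ^ (n - J) * m) w (x n) : ℝ) / 2 ^ n) U
      (𝓝 (FP J i m w x)) := by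
  have h1 := tendsto_ulim (FP_mem J hi hiJ m w x)
  refine h1.congr' ?_
  filter_upwards [U_le (eventually_ge_atTop J)] with n hn
  rw [if_pos hn]

theorem upd_scale {i n : ℕ} (hiJ : i ≤ J) (hn : J ≤ n) {m : ℤ} (hm : upd (J - i) m) :
    upd (n - i) (2 ^ (n - J) * m) := by
  unfold upd at hm ⊢
  have h1 : (2 : ℤ) ^ (n - i + 1) = 2 ^ (n - J) * 2 ^ (J - i + 1) := by
    rw [← pow_add]
    congr 1
    omega
  have h2 : (2 : ℤ) ^ (n - i) = 2 ^ (n - J) * 2 ^ (J - i) := by
    rw [← pow_add]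
    congr 1
    omega
  rw [h1, h2, Int.mul_emod_mul_of_pos _ _ (by positivity), hm]

theorem FP_lip {i : ℕ} (hi : 1 ≤ i) (hiJ : i ≤ J) {m : ℤ} (hm : upd (J - i) m) (w : ZMod 5)
    (x y : PP) : FP J i m w x - FP J i m w y ≤ dist x y := by
  refine le_of_tendsto_of_tendsto ((FP_tendsto J hi hiJ m w x).sub (FP_tendsto J hi hiJ m w y))
    (T.tendsto_dist x y) ?_
  filter_upwards [U_le (eventually_ge_atTop J)] with n hn
  obtain ⟨p, hp⟩ := W_dist n (x n) (y n)
  have h1 := fv_lip_walk (n := n) (a := n - i) (by omega) (upd_scale J hiJ hn hm) w p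
  have h2 : (fv n (n - i) (2 ^ (n - J) * m) w (x n) : ℝ) - fv n (n - i) (2 ^ (n - J) * m) w (y n)
      ≤ (G n).dist (x n) (y n) := by
    have h3 : (fv n (n - i) (2 ^ (n - J) * m) w (x n)) - fv n (n - i) (2 ^ (n - J) * m) w (y n)
      ≤ ((G n).dist (x n) (y n) : ℤ) := by
      have := le_abs_self (fv n (n - i) (2 ^ (n - J) * m) w (x n) - fv n (n - i) (2 ^ (n - J) * m) w (y n))
      have h4 : (p.length : ℤ) ≤ (G n).dist (x n) (y n) := by exact_mod_cast hp
      linarith
    exact_mod_cast h3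
  rw [T_d, ← sub_div]
  exact div_le_div_of_nonneg_right h2 (by positivity)

/-- The next vertex reached from `w` with the choice `b`. -/
def nxt (w : ZMod 5) (b : Bool) : ZMod 5 := 2 * w + (if b then 1 else 0)

theorem tgt_mk (w : ZMod 5) (b : Bool) : tgt (w, b) = nxt w b := rfl

theorem FP_dodge {i : ℕ} (hi : 1 ≤ i) (hiJ : i ≤ J) (m : ℤ) (w : ZMod 5) (x : PP) :
    ∃ b : Bool, 2 / 2 ^ i + min (FP J i m w x) (1 / 2 ^ i) ≤
      FP J i (m + 2 * 2 ^ (J - i)) (nxt w b) x := by
  have key : ∀ᶠ n in (U : Filter ℕ), (∃ b : Bool,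
      2 / 2 ^ i + min ((fv n (n - i) (2 ^ (n - J) * m) w (x n) : ℝ) / 2 ^ n) (1 / 2 ^ i) - 1 / 2 ^ n ≤
      (fv n (n - i) (2 ^ (n - J) * (m + 2 * 2 ^ (J - i))) (nxt w b) (x n) : ℝ) / 2 ^ n) := by
    filter_upwards [U_le (eventually_ge_atTop J)] with n hn
    have h1 := fv_dodge (n := n) (a := n - i) (by omega) (2 ^ (n - J) * m) w (x n)
    have h2 : (2 : ℤ) ^ (n - J) * (m + 2 * 2 ^ (J - i)) = 2 ^ (n - J) * m + 2 * 2 ^ (n - i) := by
      have : (2 : ℤ) ^ (n - i) = 2 ^ (n - J) * 2 ^ (J - i) := by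
        rw [← pow_add]
        congr 1
        omega
      rw [this]
      ring
    rw [h2]
    have h3 : ∃ b : Bool, 2 * 2 ^ (n - i) + min (fv n (n - i) (2 ^ (n - J) * m) w (x n)) (2 ^ (n - i)) - 1
        ≤ fv n (n - i) (2 ^ (n - J) * m + 2 * 2 ^ (n - i)) (nxt w b) (x n) := by
      rcases h1 with h | h
      · exact ⟨false, by simpa [nxt] using h⟩
      · exact ⟨true, by simpa [nxt] using h⟩
    obtain ⟨b, hb⟩ := h3
    refine ⟨b, ?_⟩
    have hb' : 2 * (2 : ℝ) ^ (n - i) + min (fv n (n - i) (2 ^ (n - J) * m) w (x n) : ℝ) (2 ^ (n - i)) - 1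
        ≤ fv n (n - i) (2 ^ (n - J) * m + 2 * 2 ^ (n - i)) (nxt w b) (x n) := by
      exact_mod_cast hb
    have h4 : (2 : ℝ) / 2 ^ i = 2 * 2 ^ (n - i) / 2 ^ n := by
      rw [mul_div_assoc, pow_cast_sub (by omega)]
      ring
    have h5 : (1 : ℝ) / 2 ^ i = 2 ^ (n - i) / 2 ^ n := (pow_cast_sub (by omega)).symm
    rw [h4, h5, min_div_div_right (by positivity), ← add_div, ← sub_div]
    exact div_le_div_of_nonneg_right hb' (by positivity)
  have key2 : ∃ b : Bool, ∀ᶠ n in (U : Filter ℕ),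
      2 / 2 ^ i + min ((fv n (n - i) (2 ^ (n - J) * m) w (x n) : ℝ) / 2 ^ n) (1 / 2 ^ i) - 1 / 2 ^ n ≤
      (fv n (n - i) (2 ^ (n - J) * (m + 2 * 2 ^ (J - i))) (nxt w b) (x n) : ℝ) / 2 ^ n := by
    have h : ∀ᶠ n in (U : Filter ℕ), (2 / 2 ^ i + min ((fv n (n - i) (2 ^ (n - J) * m) w (x n) : ℝ) / 2 ^ n) (1 / 2 ^ i) - 1 / 2 ^ n ≤
      (fv n (n - i) (2 ^ (n - J) * (m + 2 * 2 ^ (J - i))) (nxt w false) (x n) : ℝ) / 2 ^ n) ∨
      (2 / 2 ^ i + min ((fv n (n - i) (2 ^ (n - J) * m) w (x n) : ℝ) / 2 ^ n) (1 / 2 ^ i) - 1 / 2 ^ n ≤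
      (fv n (n - i) (2 ^ (n - J) * (m + 2 * 2 ^ (J - i))) (nxt w true) (x n) : ℝ) / 2 ^ n) := by
      filter_upwards [key] with n hn
      obtain ⟨b, hb⟩ := hn
      cases b
      · exact Or.inl hb
      · exact Or.inr hb
    rcases Ultrafilter.eventually_or.1 h with h | h
    · exact ⟨false, h⟩
    · exact ⟨true, h⟩
  obtain ⟨b, hb⟩ := key2
  refine ⟨b, ?_⟩
  have h1 := FP_tendsto J hi hiJ m w x
  have h2 := FP_tendsto J hi hiJ (m + 2 * 2 ^ (J - i)) (nxt w b) x
  have h3 : Tendsto (fun n : ℕ => (1 : ℝ) / 2 ^ n) U (𝓝 0) := by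
    have : Tendsto (fun n : ℕ => (1 : ℝ) / 2 ^ n) atTop (𝓝 0) := by
      simpa using tendsto_pow_atTop_nhds_zero_of_lt_one (r := (1 / 2 : ℝ)) (by norm_num) (by norm_num)
    exact this.mono_left U_le
  have h4 := ((tendsto_const_nhds (x := (2 : ℝ) / 2 ^ i)).add (h1.min (tendsto_const_nhds (x := (1 : ℝ) / 2 ^ i)))).sub h3
  rw [sub_zero] at h4
  exact le_of_tendsto_of_tendsto h4 h2 hb

/-- The arcs of the robber's position at stage `n`. -/
def arcs (K n : ℕ) (ε : ℕ → E) : ℕ → E := fun a => if a < n ∧ n - a ≤ K then ε (n - a) else (0, false)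

/-- Position of the robber at height `s / 2 ^ J` with arc `ε i` at level `i`, `1 ≤ i ≤ K`. -/
def rob (K : ℕ) (s : ℕ) (ε : ℕ → E) : PP := fun n =>
  if J ≤ n then (2 ^ (n - J) * (s : ℤ), arcs K n ε) else (0, fun _ => (0, false))

theorem W_const (n : ℕ) (t : ℤ) (e : ℕ → E) (m : ℕ)
    (h : ∀ k < m, ∀ a < n, upd a (t + k + 1) → src (e a) = tgt (e a)) : W n (t, e) (t + m, e) m := by
  induction m with
  | zero => simpa using W.refl n (t, e)
  | succ m ih =>
    have h1 := ih fun k hk => h k (by omega)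
    have h2 : up n (t + m, e) (t + (m + 1 : ℕ), e) := by
      refine ⟨?_, ?_⟩
      · have : (t + ((m + 1 : ℕ) : ℤ), e).1 - (t + (m : ℤ), e).1 - 1 = 0 := by
          push_cast
          ring
        rw [this]
        exact dvd_zero _
      · intro a ha
        split_ifs with hu
        · apply h m (by omega) a ha
          have : t + ((m + 1 : ℕ) : ℤ) = t + m + 1 := by push_cast; ring
          rwa [this] at hu
        · rfl
    exact h1.trans (W.of_up h2)

theorem upd_scale_iff {i n : ℕ} (hiJ : i ≤ J) (hn : J ≤ n) {m : ℤ} :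
    upd (n - i) (2 ^ (n - J) * m) ↔ upd (J - i) m := by
  refine ⟨?_, upd_scale J hiJ hn⟩
  unfold upd
  have h1 : (2 : ℤ) ^ (n - i + 1) = 2 ^ (n - J) * 2 ^ (J - i + 1) := by
    rw [← pow_add]
    congr 1
    omega
  have h2 : (2 : ℤ) ^ (n - i) = 2 ^ (n - J) * 2 ^ (J - i) := by
    rw [← pow_add]
    congr 1
    omega
  rw [h1, h2, Int.mul_emod_mul_of_pos _ _ (by positivity)]
  intro h
  exact mul_left_cancel₀ (by positivity) h

theorem rob_step_stage {K n : ℕ} (hK : K + 2 ≤ J) (hn : J ≤ n) (s : ℕ) (ε ε' : ℕ → E)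
    (h : ∀ i, 1 ≤ i → i ≤ K → if upd (J - i) (s + 1) then src (ε' i) = tgt (ε i) else ε' i = ε i) :
    W n (2 ^ (n - J) * (s : ℤ), arcs K n ε) (2 ^ (n - J) * ((s : ℤ) + 1), arcs K n ε') (2 ^ (n - J)) := by
  have hA : 1 ≤ 2 ^ (n - J) := Nat.one_le_two_pow
  obtain ⟨m, hm⟩ : ∃ m, 2 ^ (n - J) = m + 1 := ⟨2 ^ (n - J) - 1, by omega⟩
  have hm' : (2 : ℤ) ^ (n - J) = m + 1 := by exact_mod_cast hm
  have h1 : W n (2 ^ (n - J) * (s : ℤ), arcs K n ε) (2 ^ (n - J) * (s : ℤ) + m, arcs K n ε) m := by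
    apply W_const
    intro k hk a ha hu
    have h2 : a < n - J := by
      by_contra hcon
      push Not at hcon
      have h3 : (2 : ℤ) ^ (n - J) ∣ 2 ^ (n - J) * (s : ℤ) + k + 1 :=
        dvd_trans (pow_dvd_pow 2 hcon) (upd_dvd hu)
      have h4 : (2 : ℤ) ^ (n - J) ∣ (k : ℤ) + 1 := by
        have := dvd_sub h3 (Dvd.intro (s : ℤ) rfl)
        have e : 2 ^ (n - J) * (s : ℤ) + k + 1 - 2 ^ (n - J) * (s : ℤ) = k + 1 := by ring
        rwa [e] at this
      have h5 := Int.le_of_dvd (by positivity) h4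
      rw [hm'] at h5
      have : (k : ℤ) < m := by exact_mod_cast hk
      linarith
    have h3 : arcs K n ε a = (0, false) := by
      unfold arcs
      rw [if_neg]
      omega
    rw [h3]
    decide
  have h2 : up n (2 ^ (n - J) * (s : ℤ) + m, arcs K n ε)
      (2 ^ (n - J) * ((s : ℤ) + 1), arcs K n ε') := by
    refine ⟨?_, ?_⟩
    · have : (2 ^ (n - J) * ((s : ℤ) + 1), arcs K n ε').1 - (2 ^ (n - J) * (s : ℤ) + (m : ℤ), arcs K n ε).1
          - 1 = 0 := by
        simp only
        rw [hm']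
        ring
      rw [this]
      exact dvd_zero _
    · intro a ha
      simp only
      by_cases hc : n - a ≤ K
      · have e1 : arcs K n ε a = ε (n - a) := by
          unfold arcs
          rw [if_pos ⟨ha, hc⟩]
        have e2 : arcs K n ε' a = ε' (n - a) := by
          unfold arcs
          rw [if_pos ⟨ha, hc⟩]
        rw [e1, e2]
        have h3 := h (n - a) (by omega) hc
        have h4 := upd_scale_iff J (i := n - a) (n := n) (m := (s : ℤ) + 1) (by omega) hn
        rw [show n - (n - a) = a by omega] at h4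
        by_cases hu : upd a (2 ^ (n - J) * ((s : ℤ) + 1))
        · rw [if_pos hu]
          rwa [if_pos (h4.1 hu)] at h3
        · rw [if_neg hu]
          rwa [if_neg (fun h' => hu (h4.2 h'))] at h3
      · have e1 : arcs K n ε a = (0, false) := by
          unfold arcs
          rw [if_neg]
          omega
        have e2 : arcs K n ε' a = (0, false) := by
          unfold arcs
          rw [if_neg]
          omega
        rw [e1, e2]
        split_ifs
        · decide
        · rfl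
  exact (h1.trans (W.of_up h2)).mono (by omega)

theorem rob_step {K : ℕ} (hK : K + 2 ≤ J) (s : ℕ) (ε ε' : ℕ → E)
    (h : ∀ i, 1 ≤ i → i ≤ K → if upd (J - i) (s + 1) then src (ε' i) = tgt (ε i) else ε' i = ε i) :
    dist (rob J K s ε) (rob J K (s + 1) ε') ≤ 1 / 2 ^ J := by
  apply T.dist_le_of
  filter_upwards [U_le (eventually_ge_atTop J)] with n hn
  have h1 := T_le_of_W (rob_step_stage J hK hn s ε ε' h)
  unfold rob
  rw [if_pos hn, if_pos hn]
  push_cast at h1 ⊢
  rwa [pow_cast_sub hn] at h1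

theorem FP_rob {K i : ℕ} (hK : K + 2 ≤ J) (hi : 1 ≤ i) (hiK : i ≤ K) (s : ℕ) (ε : ℕ → E) (m : ℤ)
    (h1 : (s : ℤ) < m) (h2 : m ≤ s + 2 * 2 ^ (J - i)) :
    FP J i m (tgt (ε i)) (rob J K s ε) = ((m : ℝ) - s) / 2 ^ J := by
  have h3 := FP_tendsto J hi (by omega) m (tgt (ε i)) (rob J K s ε)
  refine tendsto_nhds_unique h3 ?_
  refine tendsto_const_nhds.congr' ?_
  filter_upwards [U_le (eventually_ge_atTop J)] with n hn
  have e0 : rob J K s ε n = (2 ^ (n - J) * (s : ℤ), arcs K n ε) := by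
    unfold rob
    rw [if_pos hn]
  have e1 : arcs K n ε (n - i) = ε i := by
    unfold arcs
    rw [if_pos (by omega)]
    congr 1
    omega
  have e2 : (2 : ℤ) ^ (n - J) * 2 ^ (J - i) = 2 ^ (n - i) := by
    rw [← pow_add]
    congr 1
    omega
  have hA : (1 : ℤ) ≤ 2 ^ (n - J) := one_le_pow₀ (by norm_num)
  have e3 : (2 : ℤ) ^ (n - J) * (m - s) ≤ 2 * 2 ^ (n - i) := by
    rw [← e2]
    nlinarith
  have e4 : (1 : ℤ) ≤ (2 : ℤ) ^ (n - J) * (m - s) := by nlinarith
  obtain ⟨e5, e6⟩ := pow_facts (n := n) (a := n - i) (by omega)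
  have e7 : Int.bmod (2 ^ (n - J) * m - 2 ^ (n - J) * (s : ℤ)) (2 ^ (n + 2)) = 2 ^ (n - J) * (m - s) := by
    apply bmod_eq
    · linarith
    · linarith
    · have : 2 ^ (n - J) * m - 2 ^ (n - J) * (s : ℤ) - 2 ^ (n - J) * (m - s) = 0 := by ring
      rw [this]
      exact dvd_zero _
  have e8 : fv n (n - i) (2 ^ (n - J) * m) (tgt (ε i)) (rob J K s ε n) = 2 ^ (n - J) * (m - s) := by
    rw [e0]
    unfold fv
    simp only
    rw [e7, shp_a e4 e3]
    simp [e1]
  rw [e8]
  push_cast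
  rw [mul_comm, mul_div_assoc, pow_cast_sub hn]
  ring

/-- Starting position of all cops: the antipodal height. -/
def z0 : PP := fun n => (2 * 2 ^ n, fun _ => (0, false))

theorem FP_z0 {i : ℕ} (hi : 1 ≤ i) (hiJ : i ≤ J) : FP J i (2 ^ (J - i)) 0 z0 = 3 / 2 ^ i := by
  have h3 := FP_tendsto J hi hiJ (2 ^ (J - i)) 0 z0
  refine tendsto_nhds_unique h3 ?_
  refine tendsto_const_nhds.congr' ?_
  filter_upwards [U_le (eventually_ge_atTop J)] with n hn
  obtain ⟨e5, e6⟩ := pow_facts (n := n) (a := n - i) (by omega)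
  have e2 : (2 : ℤ) ^ (n - J) * 2 ^ (J - i) = 2 ^ (n - i) := by
    rw [← pow_add]
    congr 1
    omega
  have e7 : Int.bmod (2 ^ (n - i) - 2 * 2 ^ n) (2 ^ (n + 2)) = 2 ^ (n - i) - 2 * 2 ^ n := by
    apply bmod_eq
    · linarith
    · linarith
    · rw [sub_self]
      exact dvd_zero _
  have e8 : fv n (n - i) (2 ^ (n - J) * 2 ^ (J - i)) 0 (z0 n) = 3 * 2 ^ (n - i) := by
    rw [e2]
    unfold fv z0
    simp only
    rw [e7, shp_d (by linarith) (by linarith)]
    have : decide (isArc 0 (src (0, false))) = true := by decide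
    rw [this, cond_true]
    apply min_eq_left
    linarith
  rw [e8]
  push_cast
  rw [mul_div_assoc, pow_cast_sub (by omega)]
  ring

open Classical in
/-- The choice made at a vertex. -/
noncomputable def bsel (i : ℕ) (m : ℤ) (w : ZMod 5) (x : PP) : Bool :=
  if h : ∃ b : Bool, 2 / 2 ^ i + min (FP J i m w x) (1 / 2 ^ i) ≤
      FP J i (m + 2 * 2 ^ (J - i)) (nxt w b) x then h.choose else false

theorem bsel_spec {i : ℕ} (hi : 1 ≤ i) (hiJ : i ≤ J) (m : ℤ) (w : ZMod 5) (x : PP) :
    2 / 2 ^ i + min (FP J i m w x) (1 / 2 ^ i) ≤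
      FP J i (m + 2 * 2 ^ (J - i)) (nxt w (bsel J i m w x)) x := by
  have h := FP_dodge J hi hiJ m w x
  unfold bsel
  rw [dif_pos h]
  exact h.choose_spec

/-- One step of the robber's internal state (arcs, next vertex heights). -/
noncomputable def stepR (s : ℕ) (cp : ℕ → PP) (st : (ℕ → E) × (ℕ → ℤ)) : (ℕ → E) × (ℕ → ℤ) :=
  (fun i => if st.2 i = s + 1 then (tgt (st.1 i), bsel J i (st.2 i) (tgt (st.1 i)) (cp i))
    else st.1 i,
   fun i => if st.2 i = s + 1 then st.2 i + 2 * 2 ^ (J - i) else st.2 i)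

/-- The internal state at time `s`, against the cops' positions `cp`. -/
noncomputable def state (cp : ℕ → ℕ → PP) : ℕ → (ℕ → E) × (ℕ → ℤ)
  | 0 => (fun _ => (0, false), fun i => 2 ^ (J - i))
  | s + 1 => stepR J s (cp s) (state cp s)

theorem state_good (cp : ℕ → ℕ → PP) (s : ℕ) (i : ℕ) :
    upd (J - i) ((state J cp s).2 i) ∧ (s : ℤ) < (state J cp s).2 i ∧
      (state J cp s).2 i ≤ s + 2 * 2 ^ (J - i) := by
  induction s with
  | zero =>
    have h : (0 : ℤ) < 2 ^ (J - i) := by positivity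
    refine ⟨?_, ?_, ?_⟩
    · unfold upd state
      simp only
      apply Int.emod_eq_of_lt h.le
      rw [pow_succ]
      linarith
    · simp [state]
    · simp only [state]
      push_cast
      linarith
  | succ s ih =>
    obtain ⟨h1, h2, h3⟩ := ih
    have h : (0 : ℤ) < 2 ^ (J - i) := by positivity
    simp only [state, stepR]
    by_cases hc : (state J cp s).2 i = s + 1
    · rw [if_pos hc]
      refine ⟨?_, ?_, ?_⟩
      · apply upd_of_dvd h1
        have : (state J cp s).2 i - ((state J cp s).2 i + 2 * 2 ^ (J - i)) = - 2 ^ (J - i + 1) := by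
          ring
        rw [this]
        exact (dvd_refl _).neg_right
      · rw [hc]
        push_cast
        linarith
      · rw [hc]
        push_cast
        linarith
    · rw [if_neg hc]
      refine ⟨h1, ?_, ?_⟩
      · push_cast
        omega
      · push_cast
        linarith

theorem state_upd_iff (cp : ℕ → ℕ → PP) (s : ℕ) (i : ℕ) :
    upd (J - i) ((s : ℤ) + 1) ↔ (state J cp s).2 i = s + 1 := by
  obtain ⟨h1, h2, h3⟩ := state_good J cp s i
  constructor
  · intro h
    have h4 := dvd_of_upd h1 h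
    have h5 : |(state J cp s).2 i - (s + 1)| < 2 ^ (J - i + 1) := by
      rw [abs_lt, pow_succ]
      have : (0 : ℤ) < 2 ^ (J - i) := by positivity
      constructor <;> linarith
    have := Int.eq_zero_of_abs_lt_dvd h4 h5
    linarith
  · intro h
    rwa [h] at h1

theorem state_step (cp : ℕ → ℕ → PP) (s i : ℕ) :
    if upd (J - i) ((s : ℤ) + 1) then src ((state J cp (s + 1)).1 i) = tgt ((state J cp s).1 i)
      else (state J cp (s + 1)).1 i = (state J cp s).1 i := by
  have h := state_upd_iff J cp s i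
  by_cases hc : (state J cp s).2 i = s + 1
  · rw [if_pos (h.2 hc)]
    simp only [state, stepR]
    rw [if_pos hc]
    rfl
  · rw [if_neg (fun h' => hc (h.1 h'))]
    simp only [state, stepR]
    rw [if_neg hc]

theorem state_causal (cp cp' : ℕ → ℕ → PP) (s : ℕ) (h : ∀ m < s, cp m = cp' m) :
    state J cp s = state J cp' s := by
  induction s with
  | zero => rfl
  | succ s ih =>
    simp only [state]
    rw [ih fun m hm => h m (by omega), h s (by omega)]

/-- The invariant: cop `i` is farther from the next level `i` vertex than the robber. -/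
theorem invariant {K : ℕ} (hK : K + 2 ≤ J) (cp : ℕ → ℕ → PP)
    (h0 : ∀ i, 1 ≤ i → i ≤ K → 1 / 2 ^ i + 1 / 2 ^ J ≤ FP J i (2 ^ (J - i)) 0 (cp 0 i))
    (hc : ∀ s i, dist (cp s i) (cp (s + 1) i) ≤ 1 / 2 ^ J) (s : ℕ) :
    ∀ i, 1 ≤ i → i ≤ K → (((state J cp s).2 i : ℝ) - s) / 2 ^ J + 1 / 2 ^ J ≤
      FP J i ((state J cp s).2 i) (tgt ((state J cp s).1 i)) (cp s i) := by
  induction s with
  | zero =>
    intro i hi hiK
    have h1 := h0 i hi hiK
    simp only [state]
    push_cast
    rw [sub_zero, pow_cast_sub (by omega)]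
    exact h1
  | succ s ih =>
    intro i hi hiK
    have h1 := ih i hi hiK
    obtain ⟨g1, g2, g3⟩ := state_good J cp s i
    obtain ⟨g1', g2', g3'⟩ := state_good J cp (s + 1) i
    have h2 := FP_lip J hi (by omega) g1' (tgt ((state J cp (s + 1)).1 i)) (cp s i) (cp (s + 1) i)
    have h3 := hc s i
    have hpos : (0 : ℝ) < 2 ^ J := by positivity
    by_cases hcase : (state J cp s).2 i = s + 1
    · have e1 : (state J cp (s + 1)).2 i = (state J cp s).2 i + 2 * 2 ^ (J - i) := by
        simp only [state, stepR]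
        rw [if_pos hcase]
      have e2 : tgt ((state J cp (s + 1)).1 i) = nxt (tgt ((state J cp s).1 i))
          (bsel J i ((state J cp s).2 i) (tgt ((state J cp s).1 i)) (cp s i)) := by
        simp only [state, stepR]
        rw [if_pos hcase, tgt_mk]
      have h4 := bsel_spec J hi (by omega) ((state J cp s).2 i) (tgt ((state J cp s).1 i)) (cp s i)
      rw [← e1, ← e2] at h4
      have h5 : (2 : ℝ) / 2 ^ J ≤ FP J i ((state J cp s).2 i) (tgt ((state J cp s).1 i)) (cp s i) := by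
        refine le_trans ?_ h1
        rw [hcase]
        push_cast
        rw [← add_div]
        apply div_le_div_of_nonneg_right _ hpos.le
        linarith
      have h6 : (2 : ℝ) / 2 ^ J ≤ 1 / 2 ^ i := by
        rw [div_le_div_iff₀ hpos (by positivity), one_mul]
        have : (2 : ℝ) * 2 ^ i = 2 ^ (i + 1) := by ring
        rw [this]
        exact pow_le_pow_right₀ (by norm_num) (by omega)
      have h7 := le_min h5 h6
      have e3 : (((state J cp (s + 1)).2 i : ℝ) - (s + 1 : ℕ)) / 2 ^ J = 2 / 2 ^ i := by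
        rw [e1, hcase]
        push_cast
        have : ((s : ℝ) + 1 + 2 * 2 ^ (J - i) - (s + 1)) = 2 * 2 ^ (J - i) := by ring
        rw [this, mul_div_assoc, pow_cast_sub (by omega)]
        ring
      rw [e3]
      have e4 : (2 : ℝ) / 2 ^ J = 1 / 2 ^ J + 1 / 2 ^ J := by ring
      linarith
    · have e1 : (state J cp (s + 1)).2 i = (state J cp s).2 i := by
        simp only [state, stepR]
        rw [if_neg hcase]
      have e2 : (state J cp (s + 1)).1 i = (state J cp s).1 i := by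
        simp only [state, stepR]
        rw [if_neg hcase]
      rw [e1, e2] at h2 ⊢
      have e3 : (((state J cp s).2 i : ℝ) - (s + 1 : ℕ)) / 2 ^ J =
          (((state J cp s).2 i : ℝ) - s) / 2 ^ J - 1 / 2 ^ J := by
        push_cast
        ring
      rw [e3]
      linarith

/-- The cops' positions indexed by levels. -/
noncomputable def lev {K : ℕ} (c : ℕ → Fin K → XX) : ℕ → ℕ → PP := fun s i =>
  if h : i - 1 < K then out (c s ⟨i - 1, h⟩) else z0

/-- The robber's strategy against `K` cops. -/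
noncomputable def strat (K : ℕ) : RobberStrategy XX K where
  r₀ := SeparationQuotient.mk (rob (K + 2) K 0 fun _ => (0, false))
  c₀ := fun _ => SeparationQuotient.mk z0
  τ := fun _ => 1 / 2 ^ (K + 2)
  τ_pos := fun _ => by positivity
  τ_div := by
    have : (fun n : ℕ => ∑ i ∈ Finset.range n, (1 : ℝ) / 2 ^ (K + 2)) =
        fun n : ℕ => (n : ℝ) * (1 / 2 ^ (K + 2)) := by
      funext n
      rw [Finset.sum_const, Finset.card_range, nsmul_eq_mul]
    rw [this]
    exact tendsto_natCast_atTop_atTop.atTop_mul_const (by positivity)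
  robber := fun c s => SeparationQuotient.mk (rob (K + 2) K s (state (K + 2) (lev c) s).1)
  start := fun c => rfl
  causal := by
    intro n c c' h
    have : state (K + 2) (lev c) (n + 1) = state (K + 2) (lev c') (n + 1) := by
      apply state_causal
      intro m hm
      funext i
      unfold lev
      rw [h m (by omega)]
    simp only [this]
  legal := by
    intro c n
    rw [SeparationQuotient.dist_mk]
    apply rob_step (K + 2) le_rfl
    intro i _ _
    exact state_step (K + 2) (lev c) n i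

theorem XX_evades (K : ℕ) : RobberEvades XX K := by
  refine ⟨strat K, 1 / 2 ^ (K + 2), by positivity, ?_⟩
  intro c hc n j
  have hlev : ∀ s, ∀ j : Fin K, lev c s (j.1 + 1) = out (c s j) := by
    intro s j
    unfold lev
    rw [dif_pos (by simp)]
    congr 2
  have h0 : ∀ i, 1 ≤ i → i ≤ K →
      1 / 2 ^ i + 1 / 2 ^ (K + 2) ≤ FP (K + 2) i (2 ^ (K + 2 - i)) 0 (lev c 0 i) := by
    intro i hi hiK
    have h1 : lev c 0 i = out (SeparationQuotient.mk z0 : XX) := by
      unfold lev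
      rw [dif_pos (by omega), hc.1]
      rfl
    rw [h1]
    have h2 := FP_lip (K + 2) hi (by omega) (m := 2 ^ (K + 2 - i)) (by
      unfold upd
      apply Int.emod_eq_of_lt (by positivity)
      rw [pow_succ]
      have : (0 : ℤ) < 2 ^ (K + 2 - i) := by positivity
      linarith) 0 z0 (out (SeparationQuotient.mk z0 : XX))
    have h3 : dist z0 (out (SeparationQuotient.mk z0 : XX)) = 0 := by
      rw [← SeparationQuotient.dist_mk, mk_out, dist_self]
    rw [h3, FP_z0 (K + 2) hi (by omega)] at h2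
    have h4 : (1 : ℝ) / 2 ^ (K + 2) ≤ 1 / 2 ^ i := by
      apply one_div_le_one_div_of_le (by positivity)
      exact pow_le_pow_right₀ (by norm_num) (by omega)
    have h5 : (3 : ℝ) / 2 ^ i = 1 / 2 ^ i + 1 / 2 ^ i + 1 / 2 ^ i := by ring
    have h6 : (0 : ℝ) < 1 / 2 ^ i := by positivity
    linarith
  have hstep : ∀ s i, dist (lev c s i) (lev c (s + 1) i) ≤ 1 / 2 ^ (K + 2) := by
    intro s i
    unfold lev
    split_ifs with h
    · rw [dist_out]
      exact hc.2 s _
    · rw [dist_self]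
      positivity
  have h1 := invariant (K + 2) le_rfl (lev c) h0 hstep n (j.1 + 1) (by omega) (by omega)
  obtain ⟨g1, g2, g3⟩ := state_good (K + 2) (lev c) n (j.1 + 1)
  have h2 := FP_rob (K + 2) le_rfl (by omega) (by omega : j.1 + 1 ≤ K) n
    (state (K + 2) (lev c) n).1 _ g2 g3
  have h3 := FP_lip (K + 2) (by omega) (by omega) g1 (tgt ((state (K + 2) (lev c) n).1 (j.1 + 1)))
    (lev c n (j.1 + 1)) (rob (K + 2) K n (state (K + 2) (lev c) n).1)
  rw [h2] at h3
  have h4 : dist ((strat K).robber c n) (c n j) =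
      dist (lev c n (j.1 + 1)) (rob (K + 2) K n (state (K + 2) (lev c) n).1) := by
    have e : (strat K).robber c n =
        SeparationQuotient.mk (rob (K + 2) K n (state (K + 2) (lev c) n).1) := rfl
    rw [hlev, dist_comm (out (c n j)), e]
    conv_lhs => rw [← mk_out (c n j)]
    exact SeparationQuotient.dist_mk _ _
  rw [h4]
  linarith

end Pool.Agent.H14Cops
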