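import Pool.Agent.H14Cops.Dodge
import Pool.Agent.H14Cops.Defs

/-!
The space: the ultralimit of the rescaled stage graphs.
-/

open Filter Topology

namespace Pool.Agent.H14Cops

/-- The space before identification of points at distance zero. -/
abbrev PP : Type := T.P

/-- The game space. -/
abbrev XX : Type := SeparationQuotient PP

theorem mk_surj (x : XX) : ∃ p : PP, (SeparationQuotient.mk p : XX) = x :=
  SeparationQuotient.surjective_mk x

/-- A representative. -/
noncomputable def out (x : XX) : PP := (mk_surj x).choose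

theorem mk_out (x : XX) : (SeparationQuotient.mk (out x) : XX) = x := (mk_surj x).choose_spec

theorem dist_out (x y : XX) : dist (out x) (out y) = dist x y := by
  rw [← SeparationQuotient.dist_mk, mk_out, mk_out]

theorem XX_geodesic : IsGeodesic XX := by
  intro x y
  obtain ⟨γ, h0, h1, h2⟩ := T.geodesic (fun n => 1 / 2 ^ n) (by
    simpa using tendsto_pow_atTop_nhds_zero_of_lt_one (r := (1 / 2 : ℝ)) (by norm_num) (by norm_num))
    T_geodesic (out x) (out y)
  rcases eq_or_lt_of_le (dist_nonneg (x := x) (y := y)) with hd | hd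
  · refine ⟨fun _ => x, rfl, ?_, ?_⟩
    · exact dist_eq_zero.1 hd.symm
    · intro s hs t ht
      rw [← hd] at hs ht
      have h3 : s = 0 := le_antisymm hs.2 hs.1
      have h4 : t = 0 := le_antisymm ht.2 ht.1
      simp [h3, h4]
  · refine ⟨fun s => SeparationQuotient.mk (γ (s / dist x y)), ?_, ?_, ?_⟩
    · simp only [zero_div, h0, mk_out]
    · simp only [div_self hd.ne', h1, mk_out]
    · intro s hs t ht
      simp only [SeparationQuotient.dist_mk]
      rw [h2, dist_out, ← sub_div, abs_div, abs_of_pos hd, div_mul_cancel₀ _ hd.ne']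
      · exact ⟨div_nonneg hs.1 hd.le, (div_le_one hd).2 hs.2⟩
      · exact ⟨div_nonneg ht.1 hd.le, (div_le_one hd).2 ht.2⟩

theorem XX_doubling_aux (x : XX) (r : ℝ) (hr : 0 < r) :
    ∃ C : Finset XX, C.card ≤ Ndoub ∧ Metric.ball x r ⊆ ⋃ c ∈ C, Metric.ball c (r / 2) := by
  classical
  obtain ⟨c, hc⟩ := T.doubling Ndoub T_doubling (out x) r hr
  refine ⟨Finset.univ.image fun i => (SeparationQuotient.mk (c i) : XX), ?_, ?_⟩
  · exact Finset.card_image_le.trans (by simp)
  · intro y hy
    rw [Metric.mem_ball, dist_comm, ← dist_out] at hy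
    obtain ⟨i, hi⟩ := hc (out y) hy
    rw [Set.mem_iUnion₂]
    refine ⟨SeparationQuotient.mk (c i), Finset.mem_image_of_mem _ (Finset.mem_univ i), ?_⟩
    rw [Metric.mem_ball, dist_comm, ← mk_out y, SeparationQuotient.dist_mk]
    linarith

theorem XX_doubling : DoublingConstLE XX Ndoub := XX_doubling_aux

theorem XX_bdd (x y : XX) : dist x y ≤ 22 := by
  rw [← dist_out]
  exact T.dist_le_D _ _

theorem XX_totallyBounded : TotallyBounded (Set.univ : Set XX) := by
  classical
  rw [Metric.totallyBounded_iff]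
  let x0 : XX := SeparationQuotient.mk (fun _ => (0, fun _ => (0, false)) : ℕ → St)
  have key : ∀ m : ℕ, ∃ t : Set XX, t.Finite ∧ (Set.univ : Set XX) ⊆ ⋃ y ∈ t, Metric.ball y (23 / 2 ^ m) := by
    intro m
    induction m with
    | zero =>
      refine ⟨{x0}, Set.finite_singleton _, ?_⟩
      intro y _
      simp only [Set.mem_singleton_iff, Set.iUnion_iUnion_eq_left, Metric.mem_ball]
      have := XX_bdd y x0
      norm_num
      linarith
    | succ m ih =>
      obtain ⟨t, ht, ht2⟩ := ih
      have h1 : ∀ x : XX, ∃ C : Finset XX,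
          Metric.ball x (23 / 2 ^ m) ⊆ ⋃ c ∈ C, Metric.ball c (23 / 2 ^ m / 2) := by
        intro x
        obtain ⟨C, -, hC⟩ := XX_doubling_aux x (23 / 2 ^ m) (by positivity)
        exact ⟨C, hC⟩
      choose C hC using h1
      refine ⟨⋃ x ∈ t, (C x : Set XX), ht.biUnion fun x _ => (C x).finite_toSet, ?_⟩
      intro y hy
      have h2 := ht2 hy
      rw [Set.mem_iUnion₂] at h2
      obtain ⟨x, hx, hyx⟩ := h2
      have h3 := hC x hyx
      rw [Set.mem_iUnion₂] at h3
      obtain ⟨c, hc, hyc⟩ := h3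
      rw [Set.mem_iUnion₂]
      refine ⟨c, Set.mem_biUnion hx hc, ?_⟩
      have : (23 : ℝ) / 2 ^ (m + 1) = 23 / 2 ^ m / 2 := by rw [pow_succ]; ring
      rwa [this]
  intro ε hε
  obtain ⟨m, hm⟩ := exists_pow_lt_of_lt_one (show (0 : ℝ) < ε / 23 by positivity)
    (show (1 / 2 : ℝ) < 1 by norm_num)
  obtain ⟨t, ht, ht2⟩ := key m
  refine ⟨t, ht, ht2.trans ?_⟩
  apply Set.iUnion₂_mono
  intro y _
  apply Metric.ball_subset_ball
  rw [one_div, inv_pow, lt_div_iff₀ (by norm_num)] at hm
  rw [div_eq_mul_inv]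
  linarith

instance XX_complete : CompleteSpace XX :=
  (SeparationQuotient.isUniformInducing_mk.completeSpace_congr
    SeparationQuotient.surjective_mk).1 inferInstance

instance XX_compact : CompactSpace XX :=
  ⟨isCompact_iff_totallyBounded_isComplete.2 ⟨XX_totallyBounded, isClosed_univ.isComplete⟩⟩

end Pool.Agent.H14Cops
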